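import Pool.Agent.TH969.MT.Loc

set_option autoImplicit false
set_option linter.unusedSectionVars false

/-!
# Tables on `Fin s`, and a common finite extension of the ground field
-/

namespace Pool.Agent.TH969.MT

open Finset Module

/-- The local data of a table `μ`. -/
structure DD (K : Type) [Field K] {s : ℕ} (μ : Fin s → Fin s → Fin s) where
  /-- the order of the rows -/
  e : Fin s ≃ Fin s
  /-- the order of the columns -/
  r : Fin s ≃ Fin s
  /-- the row transformation -/
  T : Matrix (Fin s) (Fin s) K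
  /-- the column transformation -/
  T' : Matrix (Fin s) (Fin s) K
  /-- the row weight -/
  φ : Fin s → ℝ
  /-- the column weight -/
  ψ : Fin s → ℝ
  T_diag : ∀ a, T a a = 1
  T_up : ∀ a c, c < a → T a c = 0
  T'_diag : ∀ a, T' a a = 1
  T'_low : ∀ a c, a < c → T' a c = 0
  hφ : ∀ a, 0 ≤ φ a ∧ φ a ≤ s + 1
  hψ : ∀ a, 0 ≤ ψ a ∧ ψ a ≤ s + 1
  hφψ : ∑ a, φ a ≤ ∑ a, ψ a
  hz : ∀ p q z, (∑ x, ∑ y, if μ (e x) (r y) = z then T p x * T' q y else 0) ≠ 0 →
    (if p ≠ q then (1 : ℝ) else 0) ≤ φ p - ψ q

/-- The table of a semigroup. -/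
def tab {S : Type} [Mul S] {s : ℕ} (g : S ≃ Fin s) : Fin s → Fin s → Fin s :=
  fun a c => g (g.symm a * g.symm c)

theorem DD.of_tri {L : Type} [Field L] {S : Type} [Semigroup S] [Fintype S] {s : ℕ}
    (g : S ≃ Fin s) (b : Basis (Fin s) L (MonoidAlgebra L S))
    (hb : ∀ (x : S) k, MonoidAlgebra.single x (1 : L) * b k ∈
      Submodule.span L (b '' {j | j ≤ k})) : Nonempty (DD L (tab g)) := by
  classical
  have hs : Fintype.card S = s := by rw [Fintype.card_congr g, Fintype.card_fin]
  obtain ⟨e, ρ, T, T', φ, ψ, h1, h2, h3, h4, h5, h6, h7, h8⟩ := local_dig hs b hb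
  refine ⟨⟨e.trans g, ρ.trans g, T, T', φ, ψ, h1, h2, h3, h4, h5, h6, h7, ?_⟩⟩
  intro p q z hne
  refine h8 p q (g.symm z) ?_
  convert hne using 6
  simp only [tab, Equiv.trans_apply, Equiv.symm_apply_apply]
  exact g.eq_symm_apply

/-- All the tables with local data over an algebraic closure have local data over a common finite
extension. -/
theorem exists_ext (F : Type) [Field F] (d : ℕ) :
    ∃ (K : Type) (_ : Field K) (_ : Algebra F K) (_ : FiniteDimensional F K),
      ∀ s ≤ d, ∀ μ : Fin s → Fin s → Fin s,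
        Nonempty (DD (AlgebraicClosure F) μ) → Nonempty (DD K μ) := by
  classical
  let ent : (Σ s : Fin (d + 1), (Fin s → Fin s → Fin s) × Fin s × Fin s × Bool) →
      AlgebraicClosure F := fun j =>
    if h : Nonempty (DD (AlgebraicClosure F) j.2.1) then
      (if j.2.2.2.2 = true then h.some.T j.2.2.1 j.2.2.2.1 else h.some.T' j.2.2.1 j.2.2.2.1)
    else 0
  let K := IntermediateField.adjoin F (Set.range ent)
  have hfd : FiniteDimensional F K := by
    have : Finite (Set.range ent) := Set.finite_range ent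
    exact IntermediateField.finiteDimensional_adjoin fun x _ =>
      Algebra.IsIntegral.isIntegral x
  refine ⟨K, inferInstance, inferInstance, hfd, ?_⟩
  intro s hs μ h
  have hmem : ∀ x ∈ Set.range ent, x ∈ K := fun x hx =>
    IntermediateField.subset_adjoin F _ hx
  have hT : ∀ a c, h.some.T a c ∈ K := fun a c => by
    refine hmem _ ⟨⟨⟨s, by omega⟩, μ, a, c, true⟩, ?_⟩
    simp only [ent]
    rw [dif_pos h]
    rfl
  have hT' : ∀ a c, h.some.T' a c ∈ K := fun a c => by
    refine hmem _ ⟨⟨⟨s, by omega⟩, μ, a, c, false⟩, ?_⟩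
    simp only [ent]
    rw [dif_pos h, if_neg (by simp)]
  refine ⟨⟨h.some.e, h.some.r, fun a c => ⟨h.some.T a c, hT a c⟩,
    fun a c => ⟨h.some.T' a c, hT' a c⟩, h.some.φ, h.some.ψ, ?_, ?_, ?_, ?_, h.some.hφ,
    h.some.hψ, h.some.hφψ, ?_⟩⟩
  · intro a
    exact Subtype.ext (h.some.T_diag a)
  · intro a c hac
    exact Subtype.ext (h.some.T_up a c hac)
  · intro a
    exact Subtype.ext (h.some.T'_diag a)
  · intro a c hac
    exact Subtype.ext (h.some.T'_low a c hac)
  · intro p q z hne
    refine h.some.hz p q z ?_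
    intro h0
    apply hne
    apply (algebraMap K (AlgebraicClosure F)).injective
    rw [map_zero, ← h0, map_sum]
    refine Finset.sum_congr rfl fun x _ => ?_
    rw [map_sum]
    refine Finset.sum_congr rfl fun y _ => ?_
    split_ifs
    · rw [map_mul]
      rfl
    · rw [map_zero]

end Pool.Agent.TH969.MT
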