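import Pool.Agent.TH969.MT.Two
import Pool.Agent.TH969.MT.Tab

set_option autoImplicit false
set_option linter.unusedSectionVars false

/-!
# Multiplication tables are sparse plus low rank over a field which contains the local data
-/

namespace Pool.Agent.TH969.MT

open Matrix Finset
open Pool.Agent.W967.Rig
open Pool.Agent.W966.Kron (tens tens_mul tens_transpose)

variable {K : Type} [Field K]

theorem rs_gr {ι : Type} [Fintype ι] [DecidableEq ι] {α : ι → Type} [∀ i, Fintype (α i)]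
    [∀ i, DecidableEq (α i)] {M k : ℝ} (hM : 0 < M) {T : Matrix (∀ i, α i) (∀ i, α i) K}
    (h : Gr M T) (hk : (Fintype.card ι : ℝ) ≤ k) (hk0 : 0 < k) {d : ℕ}
    (hd : ∀ i, Fintype.card (α i) ≤ d) {l s : ℝ} (hl : 0 < l) (hl1 : l ≤ 1) (hs : 0 ≤ s) :
    RS (Real.exp (s * Real.log (1 / l) + l * d * k))
      (2 * (Fintype.card (∀ i, α i) * Real.exp (-(s ^ 2 / (8 * M ^ 2 * k))))) T := by
  obtain ⟨φ, hφ, h1⟩ := h
  exact rs_two φ φ hM hφ hφ (fun _ => le_refl _) hk hk0 hd hl hl1 hs T h1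

/-- Unitriangular matrices are graded. -/
theorem gr_upper {ι : Type} [Fintype ι] [DecidableEq ι] (sz : ι → ℕ) {M : ℝ}
    (hM : ∀ i, (sz i : ℝ) ≤ M) (T : ∀ i, Matrix (Fin (sz i)) (Fin (sz i)) K)
    (h : ∀ i a c, c < a → T i a c = 0) : Gr M (tens T) := by
  refine gr_tens T (fun i a => sz i - a) (fun i a => ?_) (fun i a c hac => ?_)
  · have h1 : ((a : ℕ) : ℝ) < sz i := by exact_mod_cast a.2
    have h2 : (0 : ℝ) ≤ ((a : ℕ) : ℝ) := by positivity
    exact ⟨by linarith, by linarith [hM i]⟩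
  · rcases lt_trichotomy a c with h1 | h1 | h1
    · right
      have h2 : (a : ℕ) + 1 ≤ (c : ℕ) := h1
      have h3 : ((a : ℕ) : ℝ) + 1 ≤ ((c : ℕ) : ℝ) := by exact_mod_cast h2
      linarith
    · exact Or.inl h1
    · exact absurd (h i a c h1) hac

theorem det_unit_upper {ι : Type} [Fintype ι] [DecidableEq ι] (sz : ι → ℕ)
    (T : ∀ i, Matrix (Fin (sz i)) (Fin (sz i)) K) (h0 : ∀ i a, T i a a = 1)
    (h : ∀ i a c, c < a → T i a c = 0) : IsUnit (tens T).det := by
  have h1 : ∀ i, IsUnit (T i).det := fun i => by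
    rw [Matrix.det_of_isUpperTriangular (fun a c hca => h i a c hca)]
    simp [h0 i]
  refine Matrix.isUnit_det_of_left_inverse (B := tens fun i => (T i)⁻¹) ?_
  rw [tens_mul]
  have h2 : (fun i => (T i)⁻¹ * T i) = fun i => (1 : Matrix (Fin (sz i)) (Fin (sz i)) K) := by
    funext i
    exact Matrix.nonsing_inv_mul _ (h1 i)
  rw [h2]
  exact tens_one'

section

variable {n : ℕ} (sz : Fin n → ℕ) (μ : ∀ i, Fin (sz i) → Fin (sz i) → Fin (sz i))

theorem prod_expand (c : ∀ i, Fin (sz i) → Fin (sz i) → K) :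
    ∏ i, ∑ x, ∑ y, c i x y =
      ∑ x : (∀ i, Fin (sz i)), ∑ y : (∀ i, Fin (sz i)), ∏ i, c i (x i) (y i) := by
  have h1 := Finset.prod_univ_sum (fun i => (Finset.univ : Finset (Fin (sz i))))
    (fun i a => ∑ y, c i a y)
  rw [Fintype.piFinset_univ] at h1
  rw [h1]
  refine Finset.sum_congr rfl fun x _ => ?_
  have h2 := Finset.prod_univ_sum (fun i => (Finset.univ : Finset (Fin (sz i))))
    (fun i a => c i (x i) a)
  rw [Fintype.piFinset_univ] at h2
  exact h2

theorem g_expand (D : ∀ i, DD K (μ i)) (f : (∀ i, Fin (sz i)) → K) (p q : ∀ i, Fin (sz i)) :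
    ((tens fun i => (D i).T) * (Matrix.of fun x y : (∀ i, Fin (sz i)) =>
        f fun i => μ i ((D i).e (x i)) ((D i).r (y i))) * (tens fun i => (D i).T')ᵀ) p q =
      ∑ z : (∀ i, Fin (sz i)), f z * ∏ i, ∑ x, ∑ y,
        if μ i ((D i).e x) ((D i).r y) = z i then (D i).T (p i) x * (D i).T' (q i) y else 0 := by
  classical
  have h1 : ∀ z : (∀ i, Fin (sz i)), (∏ i, ∑ x, ∑ y,
      if μ i ((D i).e x) ((D i).r y) = z i then (D i).T (p i) x * (D i).T' (q i) y else 0) =
      ∑ x : (∀ i, Fin (sz i)), ∑ y : (∀ i, Fin (sz i)),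
        if (fun i => μ i ((D i).e (x i)) ((D i).r (y i))) = z then
          (tens fun i => (D i).T) p x * (tens fun i => (D i).T') q y else 0 := by
    intro z
    rw [prod_expand sz]
    refine Finset.sum_congr rfl fun x _ => Finset.sum_congr rfl fun y _ => ?_
    split_ifs with h
    · rw [tens, tens, ← Finset.prod_mul_distrib]
      refine Finset.prod_congr rfl fun i _ => ?_
      rw [if_pos (congrFun h i)]
    · obtain ⟨i, hi⟩ := Function.ne_iff.1 h
      exact Finset.prod_eq_zero (Finset.mem_univ i) (if_neg hi)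
  rw [Finset.sum_congr rfl fun z _ => by rw [h1 z]]
  simp only [Matrix.mul_apply, Matrix.transpose_apply, Matrix.of_apply, Finset.sum_mul,
    Finset.mul_sum]
  rw [Finset.sum_comm]
  rw [Finset.sum_comm (s := (Finset.univ : Finset (∀ i, Fin (sz i))))
    (t := (Finset.univ : Finset (∀ i, Fin (sz i))))
    (f := fun z x => ∑ y, f z * if (fun i => μ i ((D i).e (x i)) ((D i).r (y i))) = z then
          (tens fun i => (D i).T) p x * (tens fun i => (D i).T') q y else 0)]
  refine Finset.sum_congr rfl fun x _ => ?_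
  rw [Finset.sum_comm]
  refine Finset.sum_congr rfl fun y _ => ?_
  rw [Finset.sum_eq_single (fun i => μ i ((D i).e (x i)) ((D i).r (y i)))]
  · rw [if_pos rfl]
    ring
  · intro z _ hz
    rw [if_neg (fun h => hz h.symm), mul_zero]
  · intro h
    exact absurd (Finset.mem_univ _) h

/-- The matrix `f (x * y)` over the field `K`. -/
theorem rs_table (D : ∀ i, DD K (μ i)) {d : ℕ} (hd : ∀ i, sz i ≤ d)
    (f : (∀ i, Fin (sz i)) → K) {k : ℝ} (hk : (n : ℝ) ≤ k) (hk0 : 0 < k)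
    {l s : ℝ} (hl : 0 < l) (hl1 : l ≤ 1) (hs : 0 ≤ s) :
    RS (Real.exp (3 * (s * Real.log (1 / l) + l * d * k)))
      (6 * (Fintype.card (∀ i, Fin (sz i)) * Real.exp (-(s ^ 2 / (8 * ((d : ℝ) + 1) ^ 2 * k)))))
      (Matrix.of fun x y : (∀ i, Fin (sz i)) => f fun i => μ i (x i) (y i)) := by
  classical
  set E := Real.exp (s * Real.log (1 / l) + l * d * k) with hE
  set R := 2 * (Fintype.card (∀ i, Fin (sz i)) * Real.exp (-(s ^ 2 / (8 * ((d : ℝ) + 1) ^ 2 * k))))
    with hR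
  have hM : (0 : ℝ) < (d : ℝ) + 1 := by positivity
  have hszd : ∀ i, (sz i : ℝ) ≤ (d : ℝ) + 1 := fun i => by
    have : (sz i : ℝ) ≤ d := by exact_mod_cast hd i
    linarith
  have hszd' : ∀ i, (sz i : ℝ) + 1 ≤ (d : ℝ) + 1 := fun i => by
    have : (sz i : ℝ) ≤ d := by exact_mod_cast hd i
    linarith
  have hk' : (Fintype.card (Fin n) : ℝ) ≤ k := by rwa [Fintype.card_fin]
  have hd' : ∀ i, Fintype.card (Fin (sz i)) ≤ d := fun i => by
    rw [Fintype.card_fin]
    exact hd i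
  set T := tens fun i => (D i).T with hT
  set T' := tens fun i => (D i).T' with hT'
  set M' : Matrix (∀ i, Fin (sz i)) (∀ i, Fin (sz i)) K :=
    Matrix.of fun x y => f fun i => μ i ((D i).e (x i)) ((D i).r (y i)) with hM'
  -- the three factors
  have gT : Gr ((d : ℝ) + 1) T := gr_upper sz hszd _ fun i a c h => (D i).T_up a c h
  have uT : IsUnit T.det := det_unit_upper sz _ (fun i a => (D i).T_diag a)
    fun i a c h => (D i).T_up a c h
  have eT' : T'ᵀ = tens fun i => ((D i).T')ᵀ := tens_transpose _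
  have gT' : Gr ((d : ℝ) + 1) T'ᵀ := by
    rw [eT']
    exact gr_upper sz hszd _ fun i a c h => (D i).T'_low c a h
  have uT' : IsUnit (T'ᵀ).det := by
    rw [eT']
    exact det_unit_upper sz _ (fun i a => (D i).T'_diag a) fun i a c h => (D i).T'_low c a h
  have r1 : RS E R T⁻¹ := rs_gr hM (gT.inv uT) hk' hk0 hd' hl hl1 hs
  have r3 : RS E R (T'ᵀ)⁻¹ := rs_gr hM (gT'.inv uT') hk' hk0 hd' hl hl1 hs
  have r2 : RS E R (T * M' * T'ᵀ) := by
    refine rs_two (fun i => (D i).φ) (fun i => (D i).ψ) hM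
      (fun i a => ⟨((D i).hφ a).1, ((D i).hφ a).2.trans (hszd' i)⟩)
      (fun i a => ⟨((D i).hψ a).1, ((D i).hψ a).2.trans (hszd' i)⟩)
      (fun i => (D i).hφψ) hk' hk0 hd' hl hl1 hs _ ?_
    intro p q hne
    rw [g_expand] at hne
    obtain ⟨z, -, hz⟩ := Finset.exists_ne_zero_of_sum_ne_zero hne
    have h1 := right_ne_zero_of_mul hz
    rw [Finset.prod_ne_zero_iff] at h1
    rw [hammingDist_eq_sum, ← Finset.sum_sub_distrib]
    exact Finset.sum_le_sum fun i _ => (D i).hz (p i) (q i) (z i) (h1 i (Finset.mem_univ i))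
  have hE0 : 0 ≤ E := (Real.exp_pos _).le
  have r4 : RS (E * E * E) (R + R + R) (T⁻¹ * (T * M' * T'ᵀ) * (T'ᵀ)⁻¹) :=
    (r1.mul r2 hE0).mul r3 hE0
  have e4 : T⁻¹ * (T * M' * T'ᵀ) * (T'ᵀ)⁻¹ = M' := by
    rw [Matrix.mul_assoc, Matrix.mul_assoc (T * M'), Matrix.mul_nonsing_inv _ uT', Matrix.mul_one,
      ← Matrix.mul_assoc, Matrix.nonsing_inv_mul _ uT, Matrix.one_mul]
  rw [e4] at r4
  have r5 := r4.submatrix (fun (x : ∀ i, Fin (sz i)) i => (D i).e.symm (x i))
    (fun (x : ∀ i, Fin (sz i)) i => (D i).r.symm (x i)) (by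
      intro x y hxy
      funext i
      exact (D i).r.symm.injective (congrFun hxy i))
  have e5 : M'.submatrix (fun (x : ∀ i, Fin (sz i)) i => (D i).e.symm (x i))
      (fun (x : ∀ i, Fin (sz i)) i => (D i).r.symm (x i)) =
      Matrix.of fun x y : (∀ i, Fin (sz i)) => f fun i => μ i (x i) (y i) := by
    ext x y
    simp [hM']
  rw [e5] at r5
  refine r5.mono (le_of_eq ?_) (le_of_eq ?_)
  · rw [hE, ← Real.exp_add, ← Real.exp_add]
    congr 1
    ring
  · rw [hR]
    ring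

end

end Pool.Agent.TH969.MT
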