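import Pool.Agent.TH969.MT.Flag

set_option autoImplicit false
set_option linter.unusedSectionVars false

/-!
# Commutative semigroups and bands
-/

namespace Pool.Agent.TH969.MT

open Finset Module

/-- Commuting operators over an algebraically closed field have a common eigenvector. -/
theorem CE_comm {L S : Type} [Field L] [IsAlgClosed L] [Semigroup S] [Fintype S]
    (h : ∀ x y : S, x * y = y * x) : CE L S := by
  classical
  intro Q _ _ _ _ T hT
  have key : ∀ A : Finset S, ∃ E : Submodule L Q, E ≠ ⊥ ∧ (∀ y, ∀ v ∈ E, T y v ∈ E) ∧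
      ∀ x ∈ A, ∃ c : L, ∀ v ∈ E, T x v = c • v := by
    intro A
    induction A using Finset.induction_on with
    | empty =>
      refine ⟨⊤, ?_, fun _ _ _ => Submodule.mem_top, fun x hx => absurd hx (Finset.notMem_empty x)⟩
      exact top_ne_bot
    | insert x A _ ih =>
      obtain ⟨E, hE, hinv, hA⟩ := ih
      have hnt : Nontrivial E := Submodule.nontrivial_iff_ne_bot.2 hE
      obtain ⟨c, hc⟩ := Module.End.exists_eigenvalue ((T x).restrict (hinv x))
      obtain ⟨w, hw⟩ := hc.exists_hasEigenvector
      have hw1 : T x w.1 = c • w.1 := congrArg Subtype.val hw.apply_eq_smul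
      have hw0 : w.1 ≠ 0 := fun h0 => hw.2 (Subtype.ext h0)
      refine ⟨E ⊓ Module.End.eigenspace (T x) c, ?_, ?_, ?_⟩
      · intro hbot
        apply hw0
        have : w.1 ∈ E ⊓ Module.End.eigenspace (T x) c :=
          ⟨w.2, Module.End.mem_eigenspace_iff.2 hw1⟩
        rw [hbot] at this
        exact (Submodule.mem_bot L).1 this
      · rintro y v ⟨hv1, hv2⟩
        refine ⟨hinv y v hv1, Module.End.mem_eigenspace_iff.2 ?_⟩
        have hv3 := Module.End.mem_eigenspace_iff.1 hv2
        have e1 : T x (T y v) = T (x * y) v := by rw [hT]; rfl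
        have e2 : T (y * x) v = T y (T x v) := by rw [hT]; rfl
        rw [e1, h x y, e2, hv3, map_smul]
      · intro z hz
        rcases Finset.mem_insert.1 hz with rfl | hz
        · exact ⟨c, fun v hv => Module.End.mem_eigenspace_iff.1 hv.2⟩
        · obtain ⟨c', hc'⟩ := hA z hz
          exact ⟨c', fun v hv => hc' v hv.1⟩
  obtain ⟨E, hE, -, hA⟩ := key Finset.univ
  obtain ⟨v, hv, hv0⟩ := Submodule.exists_mem_ne_zero_of_ne_bot hE
  refine ⟨v, hv0, fun x => ?_⟩
  obtain ⟨c, hc⟩ := hA x (Finset.mem_univ x)
  exact ⟨c, hc v hv⟩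

section Band

variable {S : Type} [Semigroup S]

theorem band_one (h : ∀ x : S, x * x = x) {e g t : S} (he : e * g * t = e) : e * g * e = e := by
  calc e * g * e = e * g * (e * g * t) := by rw [he]
    _ = (e * g) * (e * g) * t := by simp only [mul_assoc]
    _ = e * g * t := by rw [h]
    _ = e := he

/-- In a band, an element of the ideal generated by `y` absorbs `y`. -/
theorem band_absorb (h : ∀ x : S, x * x = x) (a y b : S) :
    (a * y * b) * y * (a * y * b) = a * y * b := by
  refine band_one h (t := b * a * y * (a * y * b)) ?_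
  calc a * y * b * y * (b * a * y * (a * y * b))
      = a * ((y * b) * (y * b)) * ((a * y) * (a * y)) * b := by simp only [mul_assoc]
    _ = a * (y * b) * (a * y) * b := by rw [h, h]
    _ = (a * y * b) * (a * y * b) := by simp only [mul_assoc]
    _ = a * y * b := h _

/-- The ideal generated by `y`. -/
def idl (y : S) : Set S := {z | ∃ a b, z = a * y * b}

theorem self_mem_idl (h : ∀ x : S, x * x = x) (y : S) : y ∈ idl y :=
  ⟨y, y, by rw [h, h]⟩

theorem idl_mono {x z : S} (hz : z ∈ idl x) : idl z ⊆ idl x := by
  obtain ⟨a, b, rfl⟩ := hz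
  rintro _ ⟨c, d, rfl⟩
  exact ⟨c * a, b * d, by simp only [mul_assoc]⟩

theorem idl_absorb (h : ∀ x : S, x * x = x) {z y : S} (hz : z ∈ idl y) : z * y * z = z := by
  obtain ⟨a, b, rfl⟩ := hz
  exact band_absorb h a y b

theorem CE_band {L : Type} [Field L] [Fintype S] (h : ∀ x : S, x * x = x) : CE L S := by
  classical
  have main : ∀ (n : ℕ) (Q : Type) [AddCommGroup Q] [Module L Q] [FiniteDimensional L Q]
      [Nontrivial Q] (T : S → Module.End L Q), finrank L Q = n →
      (∀ x y, T (x * y) = T x * T y) → ∃ v : Q, v ≠ 0 ∧ ∀ x, ∃ c : L, T x v = c • v := by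
    intro n
    induction n using Nat.strong_induction_on with
    | _ n ih =>
    intro Q _ _ _ _ T hn hT
    have hT' : ∀ x y v, T x (T y v) = T (x * y) v := fun x y v => by rw [hT]; rfl
    by_cases hall : ∀ x, T x = 0
    · obtain ⟨v, hv⟩ := exists_ne (0 : Q)
      exact ⟨v, hv, fun x => ⟨0, by rw [hall x]; simp⟩⟩
    push Not at hall
    obtain ⟨x, hx, hmin⟩ := Set.exists_min_image {x | T x ≠ 0} (fun x => (idl x).ncard)
      (Set.toFinite _) hall
    have hx' : T x ≠ 0 := hx
    have hback : ∀ z ∈ idl x, T z ≠ 0 → idl z = idl x := fun z hz hTz =>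
      Set.eq_of_subset_of_ncard_le (idl_mono hz) (hmin z hTz) (Set.toFinite _)
    let N : Submodule L Q :=
      { carrier := {v | ∀ z ∈ idl x, T z v = 0}
        add_mem' := fun {a b} ha hb z hz => by rw [map_add, ha z hz, hb z hz, add_zero]
        zero_mem' := fun z _ => map_zero _
        smul_mem' := fun c a ha z hz => by rw [map_smul, ha z hz, smul_zero] }
    have hN : ∀ v, v ∈ N ↔ ∀ z ∈ idl x, T z v = 0 := fun v => Iff.rfl
    have hNinv : ∀ y, ∀ v ∈ N, T y v ∈ N := by
      intro y v hv z hz
      rw [hT']
      refine hv _ ?_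
      obtain ⟨a, b, rfl⟩ := hz
      exact ⟨a, b * y, by simp only [mul_assoc]⟩
    have hNtop : N ≠ ⊤ := by
      intro hNt
      apply hx'
      apply LinearMap.ext
      intro v
      have hv : v ∈ N := by rw [hNt]; exact Submodule.mem_top
      exact hv x (self_mem_idl h x)
    by_cases hNbot : N = ⊥
    · have hw : ∃ w, T x w ≠ 0 := by
        by_contra hcon
        push Not at hcon
        exact hx' (LinearMap.ext hcon)
      obtain ⟨w, hw⟩ := hw
      refine ⟨T x w, hw, fun y => ?_⟩
      by_cases hp : T (y * x) = 0
      · refine ⟨0, ?_⟩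
        rw [hT', hp]
        simp
      · refine ⟨1, ?_⟩
        rw [hT', one_smul]
        have hpx : y * x * x = y * x := by rw [mul_assoc, h]
        have hpm : y * x ∈ idl x := ⟨y, x, hpx.symm⟩
        have hpe := hback _ hpm hp
        have hmem : T (y * x) w - T x w ∈ N := by
          intro z hz
          rw [map_sub, hT', hT']
          by_cases hz0 : T z = 0
          · rw [hT z, hT z, hz0]
            simp
          · have hze := hback z hz hz0
            have e1 : x * z * x = x := idl_absorb h (by
              rw [hze]; exact self_mem_idl h x)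
            have e2 : z * (y * x) * z = z := idl_absorb h (by rw [hpe]; exact hz)
            have e3 : z * x = z * (y * x) := by
              calc z * x = z * (y * x) * z * x := by rw [e2]
                _ = z * (y * x * x) * z * x := by rw [hpx]
                _ = z * (y * x) * (x * z * x) := by simp only [mul_assoc]
                _ = z * (y * x * x) := by rw [e1]; simp only [mul_assoc]
                _ = z * (y * x) := by rw [hpx]
            rw [e3, sub_self]
        rw [hNbot] at hmem
        exact sub_eq_zero.1 ((Submodule.mem_bot L).1 hmem)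
    · have hnt : Nontrivial N := Submodule.nontrivial_iff_ne_bot.2 hNbot
      have hlt : finrank L N < n := by
        rw [← hn]
        exact Submodule.finrank_lt hNtop
      obtain ⟨v, hv0, hv⟩ := ih (finrank L N) hlt N (fun y => (T y).restrict (hNinv y)) rfl (by
        intro y z
        apply LinearMap.ext
        intro v
        apply Subtype.ext
        change T (y * z) v.1 = T y (T z v.1)
        rw [hT'])
      refine ⟨v.1, fun h0 => hv0 (Subtype.ext h0), fun y => ?_⟩
      obtain ⟨c, hc⟩ := hv y
      exact ⟨c, congrArg Subtype.val hc⟩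
  intro Q _ _ _ _ T hT
  exact main _ Q T rfl hT

end Band

end Pool.Agent.TH969.MT
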