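import Mathlib

set_option autoImplicit false
set_option linter.unusedSectionVars false

/-!
# Echelon bases, and the two flags attached to a triangular left regular representation
-/

namespace Pool.Agent.TH969.MT

open Finset Module

section Ech

variable {L : Type*} [Field L] {V : Type*} [AddCommGroup V] [Module L V] [FiniteDimensional L V]
  {S : Type*}

/-- If `W k` has dimension at least `k + 1`, one can choose vectors `u k ∈ W k` and coordinates
`e k` such that `u k` has coordinate `1` at `e k` and coordinates `0` at `e j` for `j < k`. -/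
theorem ech (bs : Basis S L V) (s : ℕ) (W : ℕ → Submodule L V)
    (hW : ∀ k < s, k + 1 ≤ finrank L (W k)) :
    ∃ (e : Fin s → S) (u : Fin s → V), (∀ k : Fin s, u k ∈ W (k : ℕ)) ∧ (∀ k, bs.repr (u k) (e k) = 1) ∧
      ∀ k j, j < k → bs.repr (u k) (e j) = 0 := by
  induction s with
  | zero => exact ⟨Fin.elim0, Fin.elim0, fun k => k.elim0, fun k => k.elim0, fun k => k.elim0⟩
  | succ s ih =>
    obtain ⟨e, u, h1, h2, h3⟩ := ih (fun k hk => hW k (by omega))
    let f : W s →ₗ[L] (Fin s → L) := LinearMap.pi fun i => (bs.coord (e i)) ∘ₗ (W s).subtype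
    have hk : LinearMap.ker f ≠ ⊥ := LinearMap.ker_ne_bot_of_finrank_lt (by
      rw [Module.finrank_fin_fun]; exact hW s (by omega))
    obtain ⟨⟨w, hw⟩, hwf, hw0⟩ := Submodule.exists_mem_ne_zero_of_ne_bot hk
    have hw1 : w ≠ 0 := fun h => hw0 (Subtype.ext h)
    have hw2 : ∃ x, bs.repr w x ≠ 0 := by
      by_contra hcon
      push Not at hcon
      apply hw1
      apply bs.repr.injective
      rw [map_zero]
      exact Finsupp.ext hcon
    obtain ⟨x, hx⟩ := hw2
    have hw3 : ∀ i, bs.repr w (e i) = 0 := fun i => by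
      have := congrFun (LinearMap.mem_ker.1 hwf) i
      simpa [f] using this
    refine ⟨Fin.snoc (α := fun _ => S) e x,
      Fin.snoc (α := fun _ => V) u ((bs.repr w x)⁻¹ • w), ?_, ?_, ?_⟩
    · intro k
      refine Fin.lastCases ?_ (fun k => ?_) k
      · rw [Fin.snoc_last]
        exact Submodule.smul_mem _ _ hw
      · rw [Fin.snoc_castSucc]
        exact h1 k
    · intro k
      refine Fin.lastCases ?_ (fun k => ?_) k
      · rw [Fin.snoc_last, Fin.snoc_last, map_smul, Finsupp.smul_apply, smul_eq_mul]
        exact inv_mul_cancel₀ hx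
      · rw [Fin.snoc_castSucc, Fin.snoc_castSucc]
        exact h2 k
    · intro k
      refine Fin.lastCases ?_ (fun k => ?_) k
      · intro j hj
        obtain ⟨j, rfl⟩ := Fin.exists_castSucc_eq.2 hj.ne
        rw [Fin.snoc_last, Fin.snoc_castSucc, map_smul, Finsupp.smul_apply, hw3, smul_zero]
      · intro j hj
        obtain ⟨j, rfl⟩ := Fin.exists_castSucc_eq.2
          (ne_of_lt (hj.trans (Fin.castSucc_lt_last k)))
        rw [Fin.snoc_castSucc, Fin.snoc_castSucc]
        exact h3 k j (Fin.castSucc_lt_castSucc_iff.1 hj)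

theorem ech_inj {bs : Basis S L V} {s : ℕ} {e : Fin s → S} {u : Fin s → V}
    (h2 : ∀ k, bs.repr (u k) (e k) = 1) (h3 : ∀ k j, j < k → bs.repr (u k) (e j) = 0) :
    Function.Injective e := by
  intro i j hij
  rcases lt_trichotomy i j with h | h | h
  · have := h3 j i h
    rw [hij, h2] at this
    exact absurd this one_ne_zero
  · exact h
  · have := h3 i j h
    rw [← hij, h2] at this
    exact absurd this one_ne_zero

end Ech

section Flags

variable {L : Type*} [Field L] {A : Type*} [NonUnitalRing A] [Module L A] [IsScalarTower L A A]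
  [SMulCommClass L A A] {s : ℕ}

/-- The right annihilator of the first `k` basis vectors. -/
def ra (b : Basis (Fin s) L A) (k : ℕ) : Submodule L A where
  carrier := {c | ∀ j : Fin s, j.val < k → b j * c = 0}
  add_mem' := fun {x y} hx hy j hj => by rw [mul_add, hx j hj, hy j hj, add_zero]
  zero_mem' := fun j _ => mul_zero _
  smul_mem' := fun r x hx j hj => by rw [mul_smul_comm, hx j hj, smul_zero]

theorem mem_ra {b : Basis (Fin s) L A} {k : ℕ} {c : A} :
    c ∈ ra b k ↔ ∀ j : Fin s, j.val < k → b j * c = 0 := Iff.rfl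

/-- The eigenvalue of the left multiplication by `a` at the `k`-th basis vector. -/
noncomputable def chi (b : Basis (Fin s) L A) (k : Fin s) : A →ₗ[L] L where
  toFun a := b.repr (a * b k) k
  map_add' x y := by rw [add_mul, map_add, Finsupp.add_apply]
  map_smul' r x := by rw [smul_mul_assoc, map_smul, Finsupp.smul_apply, RingHom.id_apply]

/-- The elements on which the left multiplications act by `chi b k`. -/
def eig (b : Basis (Fin s) L A) (k : Fin s) : Submodule L A where
  carrier := {c | ∀ a : A, a * c = chi b k a • c}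
  add_mem' := fun {x y} hx hy a => by rw [mul_add, hx a, hy a, smul_add]
  zero_mem' := fun a => by rw [mul_zero, smul_zero]
  smul_mem' := fun r x hx a => by rw [mul_smul_comm, hx a, smul_comm]

theorem mul_mem_eig (b : Basis (Fin s) L A)
    (hb : ∀ (a : A) k, a * b k ∈ Submodule.span L (b '' {j | j ≤ k})) (k : Fin s) (c : A)
    (hc : c ∈ ra b k) : b k * c ∈ eig b k := by
  intro a
  have h1 : ∀ j : Fin s, k < j → b.repr (a * b k) j = 0 := by
    intro j hj
    have h2 := hb a k
    rw [Basis.mem_span_image] at h2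
    by_contra hne
    exact absurd (h2 (Finsupp.mem_support_iff.2 hne)) (not_le.2 hj)
  rw [← mul_assoc]
  conv_lhs => rw [← b.sum_repr (a * b k), Finset.sum_mul]
  rw [Finset.sum_eq_single k]
  · rw [smul_mul_assoc]
    rfl
  · intro j _ hj
    rcases lt_or_gt_of_ne hj with h | h
    · rw [smul_mul_assoc, hc j h, smul_zero]
    · rw [h1 j h, zero_smul, zero_mul]
  · intro h
    exact absurd (Finset.mem_univ k) h

theorem ra_step [FiniteDimensional L A] (b : Basis (Fin s) L A)
    (hb : ∀ (a : A) k, a * b k ∈ Submodule.span L (b '' {j | j ≤ k})) (k : Fin s)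
    (hE : finrank L (eig b k) ≤ 1) : finrank L (ra b k) ≤ finrank L (ra b (k + 1)) + 1 := by
  let f : ra b k →ₗ[L] A := (LinearMap.mulLeft L (b k)) ∘ₗ (ra b k).subtype
  have h1 : LinearMap.range f ≤ eig b k := by
    rintro _ ⟨⟨c, hc⟩, rfl⟩
    exact mul_mem_eig b hb k c hc
  have h2 : (LinearMap.ker f).map (ra b k).subtype ≤ ra b (k + 1) := by
    rintro _ ⟨⟨c, hc⟩, hcf, rfl⟩
    intro j hj
    rcases Nat.lt_succ_iff_lt_or_eq.1 hj with h | h
    · exact hc j h
    · have : j = k := Fin.ext h
      rw [this]
      exact hcf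
  have h3 := LinearMap.finrank_range_add_finrank_ker f
  have h4 : finrank L (LinearMap.ker f) ≤ finrank L (ra b (k + 1)) := by
    rw [← Submodule.finrank_map_subtype_eq]
    exact Submodule.finrank_mono h2
  have h5 : finrank L (LinearMap.range f) ≤ finrank L (eig b k) := Submodule.finrank_mono h1
  omega

theorem ra_dim [FiniteDimensional L A] (b : Basis (Fin s) L A)
    (hb : ∀ (a : A) k, a * b k ∈ Submodule.span L (b '' {j | j ≤ k}))
    (hE : ∀ k, finrank L (eig b k) ≤ 1) (k : ℕ) (hk : k ≤ s) : s ≤ finrank L (ra b k) + k := by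
  induction k with
  | zero =>
    have : ra b 0 = ⊤ := by
      ext c
      simp [mem_ra]
    rw [this, finrank_top, finrank_eq_card_basis b, Fintype.card_fin]
    omega
  | succ k ih =>
    have h1 := ih (by omega)
    have h2 := ra_step b hb ⟨k, by omega⟩ (hE _)
    simp only at h2
    omega

theorem span_dim (b : Basis (Fin s) L A) (k : ℕ) (hk : k ≤ s) :
    finrank L (Submodule.span L (b '' {j | j.val < k})) = k := by
  have h1 : (b '' {j | j.val < k}) = Set.range (fun i : Fin k => b (Fin.castLE hk i)) := by
    ext x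
    constructor
    · rintro ⟨j, hj, rfl⟩
      exact ⟨⟨j.val, hj⟩, rfl⟩
    · rintro ⟨i, rfl⟩
      exact ⟨Fin.castLE hk i, i.2, rfl⟩
  rw [h1, finrank_span_eq_card, Fintype.card_fin]
  exact b.linearIndependent.comp _ (Fin.castLE_injective hk)

/-- The two flags and the two weights. -/
theorem flags [FiniteDimensional L A] (b : Basis (Fin s) L A)
    (hb : ∀ (a : A) k, a * b k ∈ Submodule.span L (b '' {j | j ≤ k})) :
    ∃ (W C : ℕ → Submodule L A) (φ ψ : Fin s → ℝ), (∀ k < s, k + 1 ≤ finrank L (W k)) ∧
      (∀ k < s, k + 1 ≤ finrank L (C k)) ∧ (∀ a, 0 ≤ φ a ∧ φ a ≤ s + 1) ∧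
      (∀ a, 0 ≤ ψ a ∧ ψ a ≤ s + 1) ∧ ∑ a, φ a ≤ ∑ a, ψ a ∧
      ∀ p q : Fin s, ∀ w ∈ W p, ∀ c ∈ C (Fin.rev q), w * c ≠ 0 →
        (if p ≠ q then (1 : ℝ) else 0) ≤ φ p - ψ q := by
  classical
  by_cases hE : ∀ k, finrank L (eig b k) ≤ 1
  · refine ⟨fun k => Submodule.span L (b '' {j | j.val < k + 1}), fun k => ra b (s - 1 - k),
      fun k => k, fun k => k, ?_, ?_, ?_, ?_, le_refl _, ?_⟩
    · intro k hk
      exact (span_dim b (k + 1) (by omega)).ge
    · intro k hk
      have := ra_dim b hb hE (s - 1 - k) (by omega)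
      dsimp only
      omega
    · intro a
      have : (a : ℝ) < s := by exact_mod_cast a.2
      exact ⟨by positivity, by linarith⟩
    · intro a
      have : (a : ℝ) < s := by exact_mod_cast a.2
      exact ⟨by positivity, by linarith⟩
    · intro p q w hw c hc hwc
      have hrev : s - 1 - (Fin.rev q : ℕ) = q := by
        rw [Fin.val_rev]
        omega
      dsimp only at hc hw ⊢
      rw [hrev] at hc
      have hqp : q ≤ p := by
        by_contra hlt
        rw [not_le] at hlt
        apply hwc
        have h1 : Submodule.span L (b '' {j | j.val < (p : ℕ) + 1}) ≤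
            LinearMap.ker (LinearMap.mulRight L c) := by
          rw [Submodule.span_le]
          rintro _ ⟨j, hj, rfl⟩
          have hj' : (j : ℕ) < (p : ℕ) + 1 := hj
          have hlt' : (p : ℕ) < (q : ℕ) := hlt
          exact hc j (by omega)
        exact h1 hw
      split_ifs with hne
      · have h2 : (q : ℕ) + 1 ≤ (p : ℕ) := by
          have h3 : (q : ℕ) ≤ (p : ℕ) := hqp
          have h4 : (p : ℕ) ≠ (q : ℕ) := fun h => hne (Fin.ext h)
          omega
        have h3 : ((q : ℕ) : ℝ) + 1 ≤ ((p : ℕ) : ℝ) := by exact_mod_cast h2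
        linarith
      · have h3 : ((q : ℕ) : ℝ) ≤ ((p : ℕ) : ℝ) := by exact_mod_cast hqp
        linarith
  · push Not at hE
    obtain ⟨k, hk⟩ := hE
    have hs2 : 2 ≤ s := by
      have h1 := Submodule.finrank_le (eig b k)
      rw [finrank_eq_card_basis b, Fintype.card_fin] at h1
      omega
    have hs0 : (0 : ℝ) ≤ s := by positivity
    have key : ∀ (j : ℕ) (P Q : Submodule L A), P = Q → j + 1 ≤ finrank L Q →
        j + 1 ≤ finrank L P := by
      rintro j P _ rfl h
      exact h
    refine ⟨fun j => if j < s - 1 then LinearMap.ker (chi b k) else ⊤,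
      fun j => if j < 2 then eig b k else ⊤,
      fun a => if a.val < s - 1 then 1 else s + 1, fun a => if a.val < s - 2 then 0 else s,
      ?_, ?_, ?_, ?_, ?_, ?_⟩
    · intro j hj
      by_cases h : j < s - 1
      · refine key j _ _ (if_pos h) ?_
        have h1 := LinearMap.finrank_range_add_finrank_ker (chi b k)
        rw [finrank_eq_card_basis b, Fintype.card_fin] at h1
        have h2 := Submodule.finrank_le (LinearMap.range (chi b k))
        rw [finrank_self] at h2
        omega
      · refine key j _ _ (if_neg h) ?_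
        rw [finrank_top, finrank_eq_card_basis b, Fintype.card_fin]
        omega
    · intro j hj
      by_cases h : j < 2
      · refine key j _ _ (if_pos h) ?_
        omega
      · refine key j _ _ (if_neg h) ?_
        rw [finrank_top, finrank_eq_card_basis b, Fintype.card_fin]
        omega
    · intro a
      dsimp only
      split_ifs <;> constructor <;> linarith
    · intro a
      dsimp only
      split_ifs <;> constructor <;> linarith
    · obtain ⟨t, rfl⟩ : ∃ t, s = t + 2 := ⟨s - 2, by omega⟩
      rw [Fin.sum_univ_castSucc, Fin.sum_univ_castSucc (n := t + 1)]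
      rw [Fin.sum_univ_castSucc (n := t) (f := fun i : Fin (t + 1) =>
        if (Fin.castSucc i).val < t + 2 - 1 then (1 : ℝ) else _)]
      rw [Fin.sum_univ_castSucc (n := t) (f := fun i : Fin (t + 1) =>
        if (Fin.castSucc i).val < t + 2 - 2 then (0 : ℝ) else _)]
      simp
      linarith
    · intro p q w hw c hc hwc
      dsimp only at hw hc ⊢
      have hrev : (Fin.rev q : ℕ) = s - (q + 1) := Fin.val_rev q
      by_cases hp : (p : ℕ) < s - 1
      · rw [if_pos hp] at hw
        have hq : (q : ℕ) < s - 2 := by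
          by_contra hq
          have : (Fin.rev q : ℕ) < 2 := by omega
          rw [if_pos this] at hc
          apply hwc
          rw [hc w, LinearMap.mem_ker.1 hw, zero_smul]
        rw [if_pos hp, if_pos hq]
        split_ifs <;> norm_num
      · rw [if_neg hp]
        split_ifs <;> linarith

end Flags

end Pool.Agent.TH969.MT
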