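import Pool.Agent.TH969.MT.Pencil

set_option autoImplicit false
set_option linter.unusedSectionVars false

/-!
# Examples of tame spaces: commuting families and spaces of dimension at most two
-/

namespace Pool.Agent.TH969.MT

open Matrix Finset Module

variable {K : Type} [Field K] {s : ℕ}

/-- A flag of invariant subspaces for the matrices `E⁻¹ * A` shows that the space is tame. -/
theorem tame_of_flag (𝓐 : Submodule K (Matrix (Fin s) (Fin s) K)) (E : Matrix (Fin s) (Fin s) K)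
    (hE : IsUnit E.det) (b : Fin s → (Fin s → K)) (hb : LinearIndependent K b)
    (h : ∀ A ∈ 𝓐, ∀ j, (E⁻¹ * A) *ᵥ b j ∈ Submodule.span K (b '' {i | i ≤ j})) : Tame 𝓐 := by
  classical
  let Q : Matrix (Fin s) (Fin s) K := Matrix.of fun i j => b (Fin.rev j) i
  have hQc : ∀ j, Q.col j = b (Fin.rev j) := fun j => rfl
  have hQ : IsUnit Q.det := by
    rw [← Matrix.isUnit_iff_isUnit_det, ← Matrix.linearIndependent_cols_iff_isUnit]
    exact hb.comp _ Fin.rev_injective
  have hE' : IsUnit (E⁻¹).det := Matrix.isUnit_nonsing_inv_det _ hE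
  have hQ' : IsUnit (Q⁻¹).det := Matrix.isUnit_nonsing_inv_det _ hQ
  refine Or.inl ⟨Q⁻¹ * E⁻¹, Q, ?_, hQ, ?_⟩
  · rw [Matrix.det_mul]
    exact hQ'.mul hE'
  · intro A hA p q hpq
    have h1 : ∀ v ∈ Submodule.span K (b '' {i | i ≤ Fin.rev q}), (Q⁻¹ *ᵥ v) p = 0 := by
      intro v hv
      refine Submodule.span_induction (p := fun v _ => (Q⁻¹ *ᵥ v) p = 0) ?_ ?_ ?_ ?_ hv
      · rintro _ ⟨i, hi, rfl⟩
        have e1 : b i = Q *ᵥ (Pi.single (Fin.rev i) 1) := by
          rw [Matrix.mulVec_single_one, hQc, Fin.rev_rev]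
        rw [e1, Matrix.mulVec_mulVec, Matrix.nonsing_inv_mul _ hQ, Matrix.one_mulVec]
        refine Pi.single_eq_of_ne ?_ _
        intro hp
        have hi' : i ≤ Fin.rev q := hi
        rw [Fin.le_def, Fin.val_rev] at hi'
        rw [Fin.lt_def, hp, Fin.val_rev] at hpq
        have := q.2
        omega
      · simp
      · intro x y _ _ hx hy
        rw [Matrix.mulVec_add, Pi.add_apply, hx, hy, add_zero]
      · intro c x _ hx
        rw [Matrix.mulVec_smul, Pi.smul_apply, hx, smul_zero]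
    have h2 := h1 _ (h A hA (Fin.rev q))
    rw [Matrix.mulVec_mulVec] at h2
    have h3 : (Q⁻¹ * E⁻¹ * A * Q) p q = ((Q⁻¹ * (E⁻¹ * A)) *ᵥ b (Fin.rev q)) p := by
      rw [← hQc, Matrix.mul_assoc Q⁻¹ E⁻¹ A]
      rfl
    rw [h3]
    exact h2

/-- A family which commutes after division by an invertible matrix is tame. -/
theorem tame_of_comm [IsAlgClosed K] (𝓐 : Submodule K (Matrix (Fin s) (Fin s) K))
    (E : Matrix (Fin s) (Fin s) K) (hE : IsUnit E.det)
    (h : ∀ A ∈ 𝓐, ∀ B ∈ 𝓐, A * E⁻¹ * B = B * E⁻¹ * A) : Tame 𝓐 := by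
  classical
  obtain ⟨b, hb, hb2⟩ := comm_flag (K := K) (V := Fin s → K)
    (fun A : 𝓐 => (E⁻¹ * A.1).mulVecLin) (by
      intro A B
      apply LinearMap.ext
      intro v
      change (E⁻¹ * A.1) *ᵥ ((E⁻¹ * B.1) *ᵥ v) = (E⁻¹ * B.1) *ᵥ ((E⁻¹ * A.1) *ᵥ v)
      rw [Matrix.mulVec_mulVec, Matrix.mulVec_mulVec]
      have h1 := h A.1 A.2 B.1 B.2
      have h2 : E⁻¹ * A.1 * (E⁻¹ * B.1) = E⁻¹ * B.1 * (E⁻¹ * A.1) := by
        calc E⁻¹ * A.1 * (E⁻¹ * B.1) = E⁻¹ * (A.1 * E⁻¹ * B.1) := by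
              simp only [Matrix.mul_assoc]
          _ = E⁻¹ * (B.1 * E⁻¹ * A.1) := by rw [h1]
          _ = E⁻¹ * B.1 * (E⁻¹ * A.1) := by simp only [Matrix.mul_assoc]
      rw [h2]) s (by rw [Module.finrank_fin_fun])
  exact tame_of_flag 𝓐 E hE b hb fun A hA j => hb2 ⟨A, hA⟩ j

/-- A shrunk subspace gives a large block of zeros. -/
theorem tame_of_shrunk (𝓐 : Submodule K (Matrix (Fin s) (Fin s) K)) (C D : Submodule K (Fin s → K))
    (h : ∀ A ∈ 𝓐, ∀ y ∈ C, A *ᵥ y ∈ D) (hCD : finrank K D < finrank K C) : Tame 𝓐 := by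
  let Φ : (Fin s → K) →ₗ[K] Module.Dual K D := LinearMap.mk₂ K (fun x (y : D) => x ⬝ᵥ y.1)
    (fun a b c => add_dotProduct _ _ _) (fun c a b => smul_dotProduct _ _ _)
    (fun a b c => dotProduct_add _ _ _) (fun c a b => dotProduct_smul _ _ _)
  have h1 := LinearMap.finrank_range_add_finrank_ker Φ
  have h2 := Submodule.finrank_le (LinearMap.range Φ)
  rw [Subspace.dual_finrank_eq] at h2
  rw [Module.finrank_fin_fun] at h1
  refine Or.inr ⟨LinearMap.ker Φ, C, by omega, ?_⟩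
  intro A hA x hx y hy
  have h3 := LinearMap.congr_fun (LinearMap.mem_ker.1 hx) ⟨A *ᵥ y, h A hA y hy⟩
  exact h3

theorem tame_pencil [IsAlgClosed K] (𝓐 : Submodule K (Matrix (Fin s) (Fin s) K))
    (A B : Matrix (Fin s) (Fin s) K) (h : 𝓐 ≤ Submodule.span K {A, B}) : Tame 𝓐 := by
  classical
  have hinf : Infinite K := IsAlgClosed.instInfinite
  by_cases hdet : ∃ t : K, IsUnit (A + t • B).det
  · obtain ⟨t, ht⟩ := hdet
    set E := A + t • B with hE
    refine tame_of_comm 𝓐 E ht ?_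
    have key : ∀ X ∈ 𝓐, ∃ a b : K, X = a • E + b • B := by
      intro X hX
      obtain ⟨a, b, hab⟩ := Submodule.mem_span_pair.1 (h hX)
      refine ⟨a, b - a * t, ?_⟩
      rw [← hab, hE, smul_add, sub_smul, smul_smul]
      abel
    intro X hX Y hY
    obtain ⟨a, b, rfl⟩ := key X hX
    obtain ⟨a', b', rfl⟩ := key Y hY
    simp only [Matrix.add_mul, Matrix.mul_add, Matrix.smul_mul, Matrix.mul_smul,
      Matrix.mul_nonsing_inv _ ht, Matrix.one_mul, Matrix.mul_assoc, Matrix.nonsing_inv_mul _ ht,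
      Matrix.mul_one]
    simp only [smul_add, smul_smul, mul_comm a' a, mul_comm b' b, mul_comm a' b, mul_comm b' a]
    abel
  · push Not at hdet
    obtain ⟨C, D, hA, hB, hCD⟩ := singular_pencil (V := Fin s → K) A.mulVecLin B.mulVecLin (by
      intro t hinj
      apply hdet t
      rw [← Matrix.isUnit_iff_isUnit_det, ← Matrix.mulVec_injective_iff_isUnit]
      have e1 : (A + t • B).mulVec = A.mulVecLin + t • B.mulVecLin := by
        funext v
        simp [Matrix.add_mulVec, Matrix.smul_mulVec]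
      rw [e1]
      exact hinj)
    refine tame_of_shrunk 𝓐 C D ?_ hCD
    intro X hX y hy
    obtain ⟨a, b, rfl⟩ := Submodule.mem_span_pair.1 (h hX)
    rw [Matrix.add_mulVec, Matrix.smul_mulVec, Matrix.smul_mulVec]
    exact Submodule.add_mem _ (Submodule.smul_mem _ _ (hA ⟨y, hy, rfl⟩))
      (Submodule.smul_mem _ _ (hB ⟨y, hy, rfl⟩))

/-- Over an algebraically closed field, spaces of dimension at most two are tame. -/
theorem tame_of_finrank [IsAlgClosed K] (𝓐 : Submodule K (Matrix (Fin s) (Fin s) K))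
    (h : finrank K 𝓐 ≤ 2) : Tame 𝓐 := by
  classical
  let bs := Module.finBasis K 𝓐
  let f : ℕ → Matrix (Fin s) (Fin s) K := fun i =>
    if hi : i < finrank K 𝓐 then (bs ⟨i, hi⟩).1 else 0
  refine tame_pencil 𝓐 (f 0) (f 1) ?_
  intro X hX
  have h1 := bs.sum_repr ⟨X, hX⟩
  have h2 : X = ∑ i, bs.repr ⟨X, hX⟩ i • (bs i).1 := by
    have h3 : X = (∑ i, bs.repr ⟨X, hX⟩ i • bs i : 𝓐).1 := (congrArg Subtype.val h1).symm
    refine h3.trans ?_
    rw [Submodule.coe_sum]
    rfl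
  rw [h2]
  refine Submodule.sum_mem _ fun i _ => Submodule.smul_mem _ _ (Submodule.subset_span ?_)
  have h4 : (bs i).1 = f i := by
    simp only [f]
    rw [dif_pos i.2]
  rw [h4]
  have h5 : (i : ℕ) = 0 ∨ (i : ℕ) = 1 := by
    have := i.2
    omega
  rcases h5 with h5 | h5
  · rw [h5]
    exact Or.inl rfl
  · rw [h5]
    exact Or.inr rfl

end Pool.Agent.TH969.MT
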