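import Pool.Agent.TH969.MT.Cls
import Pool.Agent.TH969.MT.TameEx

set_option autoImplicit false
set_option linter.unusedSectionVars false

/-!
# Final forms
-/

namespace Pool.Agent.TH969.MT

open Matrix Finset Module Filter Topology
open Pool.Agent.W967.Rig
open Pool.Agent.W966.Kron (tens)

theorem const_le (C : ℝ) {γ : ℝ} (hγ : 0 < γ) :
    ∃ N₀ : ℕ, ∀ N : ℕ, N₀ ≤ N → C ≤ (N : ℝ) ^ γ := by
  obtain ⟨N₁, hN₁⟩ := ((tendsto_rpow_atTop hγ).comp
    tendsto_natCast_atTop_atTop).eventually_ge_atTop C |>.exists_forall_of_atTop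
  exact ⟨N₁, fun N hN => hN₁ N hN⟩

/-- Tensor products of tame spaces. -/
theorem final_space (d D : ℕ) (ε : ℝ) (hε : 0 < ε) :
    ∃ γ : ℝ, 0 < γ ∧ ∃ N₀ : ℕ, ∀ (F K : Type) [Field F] [Field K] [Algebra F K]
      [FiniteDimensional F K] (n : ℕ) (sz : Fin n → ℕ)
      (𝓐 : ∀ i, Submodule K (Matrix (Fin (sz i)) (Fin (sz i)) K))
      (M : Matrix (∀ i, Fin (sz i)) (∀ i, Fin (sz i)) F), finrank F K ≤ D →
      (∀ i, 2 ≤ sz i ∧ sz i ≤ d) → (∀ i, Tame (𝓐 i)) → N₀ ≤ ∏ i, sz i →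
      M.map (algebraMap F K) ∈ Submodule.span K {B | ∃ A : ∀ i, Matrix (Fin (sz i)) (Fin (sz i)) K,
        (∀ i, A i ∈ 𝓐 i) ∧ B = tens A} →
      ∃ B : Matrix (∀ i, Fin (sz i)) (∀ i, Fin (sz i)) F,
        (B.rank : ℝ) ≤ (Fintype.card (∀ i, Fin (sz i)) : ℝ) ^ (1 - γ) ∧
        ∀ x, (Nat.card {y // M x y ≠ B x y} : ℝ) ≤
          (Fintype.card (∀ i, Fin (sz i)) : ℝ) ^ ε := by
  obtain ⟨γ, hγ, h⟩ := main_space (d + 1) (Nat.succ_pos d) ε hε
  obtain ⟨N₁, hN₁⟩ := const_le (6 * (D : ℝ)) (show 0 < γ / 2 by positivity)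
  refine ⟨γ / 2, by positivity, max 2 N₁, ?_⟩
  intro F K _ _ _ _ n sz 𝓐 M hD hsz hT hN hM
  have hcard : Fintype.card (∀ i, Fin (sz i)) = ∏ i, sz i := by
    rw [Fintype.card_pi]
    exact Finset.prod_congr rfl fun i _ => Fintype.card_fin _
  have hcr : ∏ i, (sz i : ℝ) = Fintype.card (∀ i, Fin (sz i)) := by
    rw [hcard]
    push_cast
    rfl
  have hN2 : 2 ≤ ∏ i, sz i := (le_max_left _ _).trans hN
  have h1 := h F K n sz 𝓐 M (fun i => (hsz i).1) (fun i => (hsz i).2.trans (Nat.le_succ d)) hT hN2 hM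
  rw [hcr] at h1
  refine near_of_rs M (by rw [hcard]; exact hN2) ?_ h1
  refine le_trans ?_ (hN₁ _ (by rw [hcard]; exact (le_max_right _ _).trans hN))
  have : (finrank F K : ℝ) ≤ D := by exact_mod_cast hD
  linarith

/-- Families with at most two members, or which commute after division. -/
theorem final_expl (d : ℕ) (ε : ℝ) (hε : 0 < ε) :
    ∃ γ : ℝ, 0 < γ ∧ ∃ N₀ : ℕ, ∀ (F K : Type) [Field F] [Field K] [Algebra F K]
      [FiniteDimensional F K] [IsAlgClosed K] (n : ℕ) (sz : Fin n → ℕ) (Z : Fin n → Type)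
      [∀ i, Fintype (Z i)] (A : ∀ i, Z i → Matrix (Fin (sz i)) (Fin (sz i)) F)
      (f : (∀ i, Z i) → F), finrank F K ≤ 2 → (∀ i, 2 ≤ sz i ∧ sz i ≤ d) →
      (∀ i, Fintype.card (Z i) ≤ 2 ∨ ∃ E : Matrix (Fin (sz i)) (Fin (sz i)) F, IsUnit E.det ∧
        ∀ a b, A i a * E⁻¹ * A i b = A i b * E⁻¹ * A i a) → N₀ ≤ ∏ i, sz i →
      ∃ B : Matrix (∀ i, Fin (sz i)) (∀ i, Fin (sz i)) F,
        (B.rank : ℝ) ≤ (Fintype.card (∀ i, Fin (sz i)) : ℝ) ^ (1 - γ) ∧
        ∀ x, (Nat.card {y // (∑ z, f z • tens fun i => A i (z i)) x y ≠ B x y} : ℝ) ≤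
          (Fintype.card (∀ i, Fin (sz i)) : ℝ) ^ ε := by
  classical
  obtain ⟨γ, hγ, N₀, h⟩ := final_space d 2 ε hε
  refine ⟨γ, hγ, N₀, ?_⟩
  intro F K _ _ _ _ _ n sz Z _ A f hD hsz hA hN
  let 𝓐 : ∀ i, Submodule K (Matrix (Fin (sz i)) (Fin (sz i)) K) := fun i =>
    Submodule.span K (Set.range fun a => (A i a).map (algebraMap F K))
  refine h F K n sz 𝓐 _ hD hsz ?_ hN ?_
  · intro i
    rcases hA i with h2 | ⟨E, hE, hc⟩
    · refine tame_of_finrank (𝓐 i) ?_
      refine le_trans (finrank_range_le_card _) h2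
    · refine tame_of_comm (𝓐 i) (E.map (algebraMap F K)) ?_ ?_
      · have h3 : (E.map (algebraMap F K)).det = algebraMap F K E.det :=
          (RingHom.map_det (algebraMap F K) E).symm
        rw [h3]
        exact hE.map _
      · have hinv : (E.map (algebraMap F K))⁻¹ = (E⁻¹).map (algebraMap F K) := by
          refine Matrix.inv_eq_right_inv ?_
          rw [← Matrix.map_mul, Matrix.mul_nonsing_inv _ hE]
          simp
        intro X hX Y hY
        rw [hinv]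
        refine Submodule.span_induction (p := fun X _ => X * (E⁻¹).map (algebraMap F K) * Y =
          Y * (E⁻¹).map (algebraMap F K) * X) ?_ ?_ ?_ ?_ hX
        · rintro _ ⟨a, rfl⟩
          refine Submodule.span_induction (p := fun Y _ => (A i a).map (algebraMap F K) *
            (E⁻¹).map (algebraMap F K) * Y = Y * (E⁻¹).map (algebraMap F K) *
              (A i a).map (algebraMap F K)) ?_ ?_ ?_ ?_ hY
          · rintro _ ⟨b, rfl⟩
            dsimp only
            rw [← Matrix.map_mul, ← Matrix.map_mul, ← Matrix.map_mul, ← Matrix.map_mul, hc a b]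
          · simp
          · intro P Q _ _ hP hQ
            rw [Matrix.mul_add, Matrix.add_mul, Matrix.add_mul, hP, hQ]
          · intro c P _ hP
            rw [Matrix.mul_smul, Matrix.smul_mul, Matrix.smul_mul, hP]
        · simp
        · intro P Q _ _ hP hQ
          rw [Matrix.mul_add, Matrix.add_mul, Matrix.add_mul, hP, hQ]
        · intro c P _ hP
          rw [Matrix.mul_smul, Matrix.smul_mul, Matrix.smul_mul, hP]
  · have e1 : (∑ z, f z • tens fun i => A i (z i)).map (algebraMap F K) =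
        ∑ z, algebraMap F K (f z) • tens fun i => (A i (z i)).map (algebraMap F K) := by
      ext x y
      simp only [Matrix.map_apply, Matrix.sum_apply, Matrix.smul_apply, tens, smul_eq_mul,
        map_sum, map_mul, map_prod]
    rw [e1]
    refine Submodule.sum_mem _ fun z _ => Submodule.smul_mem _ _ (Submodule.subset_span ?_)
    exact ⟨fun i => (A i (z i)).map (algebraMap F K),
      fun i => Submodule.subset_span ⟨z i, rfl⟩, rfl⟩

/-- Multiplication tables of products of small semigroups. -/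
theorem final_semi (d : ℕ) (ε : ℝ) (hε : 0 < ε) :
    ∃ γ : ℝ, 0 < γ ∧ ∀ (F : Type) [Field F], ∃ N₀ : ℕ, ∀ (n : ℕ) (S : Fin n → Type)
      [∀ i, Semigroup (S i)] [∀ i, Fintype (S i)] (f : (∀ i, S i) → F),
      (∀ i, 2 ≤ Fintype.card (S i) ∧ Fintype.card (S i) ≤ d) →
      (∀ i, (∀ x y : S i, x * y = y * x) ∨ (∀ x : S i, x * x = x) ∨
        Tri (AlgebraicClosure F) (S i)) → N₀ ≤ ∏ i, Fintype.card (S i) →
      ∃ B : Matrix (∀ i, S i) (∀ i, S i) F,
        (B.rank : ℝ) ≤ (Fintype.card (∀ i, S i) : ℝ) ^ (1 - γ) ∧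
        ∀ x, (Nat.card {y // f (x * y) ≠ B x y} : ℝ) ≤ (Fintype.card (∀ i, S i) : ℝ) ^ ε := by
  obtain ⟨γ, hγ, h⟩ := main_rs (d + 1) (Nat.succ_pos d) ε hε
  refine ⟨γ / 2, by positivity, ?_⟩
  intro F _
  obtain ⟨C, hC, h'⟩ := h F
  obtain ⟨N₁, hN₁⟩ := const_le C (show 0 < γ / 2 by positivity)
  refine ⟨max 2 N₁, ?_⟩
  intro n S _ _ f hsz hS hN
  have hcard : Fintype.card (∀ i, S i) = ∏ i, Fintype.card (S i) := Fintype.card_pi
  have hcr : ∏ i, (Fintype.card (S i) : ℝ) = Fintype.card (∀ i, S i) := by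
    rw [hcard]
    push_cast
    rfl
  have hN2 : 2 ≤ ∏ i, Fintype.card (S i) := (le_max_left _ _).trans hN
  have hT : ∀ i, Tri (AlgebraicClosure F) (S i) := by
    intro i
    rcases hS i with h1 | h1 | h1
    · exact tri_of_CE (CE_comm h1)
    · exact tri_of_CE (CE_band h1)
    · exact h1
  have h1 := h' n S (fun i => (hsz i).1) (fun i => (hsz i).2.trans (Nat.le_succ d)) hT hN2 f
  rw [hcr] at h1
  exact near_of_rs (Matrix.of fun x y : (∀ i, S i) => f (x * y)) (by rw [hcard]; exact hN2)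
    (hN₁ _ (by rw [hcard]; exact (le_max_right _ _).trans hN)) h1

end Pool.Agent.TH969.MT
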