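import Pool.Agent.TH969.MT.Main

set_option autoImplicit false
set_option linter.unusedSectionVars false

/-!
# Semigroups all of whose representations have a common eigenvector
-/

namespace Pool.Agent.TH969.MT

open Finset Module

/-- Every nonzero finite-dimensional representation has a common eigenvector. -/
def CE (L S : Type) [Field L] [Semigroup S] : Prop :=
  ∀ (Q : Type) [AddCommGroup Q] [Module L Q] [FiniteDimensional L Q] [Nontrivial Q]
    (T : S → Module.End L Q), (∀ x y, T (x * y) = T x * T y) →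
      ∃ v : Q, v ≠ 0 ∧ ∀ x, ∃ c : L, T x v = c • v

section

variable {L S : Type} [Field L] [Semigroup S]

/-- The left multiplication by `x`. -/
noncomputable def lm (L : Type) {S : Type} [Field L] [Semigroup S] (x : S) :
    Module.End L (MonoidAlgebra L S) := LinearMap.mulLeft L (MonoidAlgebra.single x (1 : L))

theorem lm_apply (x : S) (a : MonoidAlgebra L S) :
    lm L x a = MonoidAlgebra.single x (1 : L) * a := rfl

theorem lm_mul (x y : S) (a : MonoidAlgebra L S) : lm L (x * y) a = lm L x (lm L y a) := by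
  rw [lm_apply, lm_apply, lm_apply, ← mul_assoc, MonoidAlgebra.single_mul_single, one_mul]

theorem exists_next [Fintype S] (h : CE L S) (U : Submodule L (MonoidAlgebra L S)) (hU : U ≠ ⊤)
    (hinv : ∀ x, ∀ a ∈ U, lm L x a ∈ U) :
    ∃ v, v ∉ U ∧ ∀ x, ∃ c : L, lm L x v - c • v ∈ U := by
  have hfd : FiniteDimensional L (MonoidAlgebra L S) :=
    (MonoidAlgebra.basis S L).finiteDimensional_of_finite
  have hnt : Nontrivial (MonoidAlgebra L S ⧸ U) := Submodule.Quotient.nontrivial_iff.2 hU
  obtain ⟨v, hv, hv2⟩ := h (MonoidAlgebra L S ⧸ U) (fun x => U.mapQ U (lm L x) (hinv x)) (by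
    intro x y
    apply LinearMap.ext
    intro q
    obtain ⟨a, rfl⟩ := Submodule.Quotient.mk_surjective U q
    change Submodule.Quotient.mk (lm L (x * y) a) = Submodule.Quotient.mk (lm L x (lm L y a))
    rw [lm_mul])
  obtain ⟨a, rfl⟩ := Submodule.Quotient.mk_surjective U v
  refine ⟨a, fun ha => hv ((Submodule.Quotient.mk_eq_zero U).2 ha), fun x => ?_⟩
  obtain ⟨c, hc⟩ := hv2 x
  refine ⟨c, (Submodule.Quotient.eq U).1 ?_⟩
  exact hc

theorem exists_flag [Fintype S] (h : CE L S) (k : ℕ) (hk : k ≤ Fintype.card S) :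
    ∃ b : Fin k → MonoidAlgebra L S, LinearIndependent L b ∧
      ∀ x j, lm L x (b j) ∈ Submodule.span L (b '' {i | i ≤ j}) := by
  induction k with
  | zero =>
    exact ⟨Fin.elim0, linearIndependent_empty_type, fun x j => j.elim0⟩
  | succ k ih =>
    obtain ⟨b, hb1, hb2⟩ := ih (by omega)
    set U := Submodule.span L (Set.range b) with hU
    have hfd : FiniteDimensional L (MonoidAlgebra L S) :=
      (MonoidAlgebra.basis S L).finiteDimensional_of_finite
    have hUt : U ≠ ⊤ := by
      intro hUt
      have h1 := finrank_span_eq_card hb1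
      rw [← hU, hUt, finrank_top, finrank_eq_card_basis (MonoidAlgebra.basis S L),
        Fintype.card_fin] at h1
      omega
    have hinv : ∀ x, ∀ a ∈ U, lm L x a ∈ U := by
      intro x a ha
      have h1 : U ≤ U.comap (lm L x) := by
        rw [hU, Submodule.span_le]
        rintro _ ⟨j, rfl⟩
        exact Submodule.span_mono (Set.image_subset_range _ _) (hb2 x j)
      exact h1 ha
    obtain ⟨v, hv1, hv2⟩ := exists_next h U hUt hinv
    refine ⟨Fin.snoc (α := fun _ => MonoidAlgebra L S) b v,
      linearIndependent_finSnoc.2 ⟨hb1, hv1⟩, ?_⟩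
    intro x j
    refine Fin.lastCases ?_ (fun j => ?_) j
    · obtain ⟨c, hc⟩ := hv2 x
      rw [Fin.snoc_last]
      have h1 : lm L x v = (lm L x v - c • v) + c • v := by abel
      rw [h1]
      refine Submodule.add_mem _ ?_ (Submodule.smul_mem _ _ (Submodule.subset_span
        ⟨Fin.last k, Fin.le_last _, Fin.snoc_last _ _⟩))
      refine Submodule.span_mono ?_ hc
      rintro _ ⟨i, rfl⟩
      exact ⟨i.castSucc, Fin.le_last _, Fin.snoc_castSucc _ _ _⟩
    · rw [Fin.snoc_castSucc]
      refine Submodule.span_mono ?_ (hb2 x j)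
      rintro _ ⟨i, hi, rfl⟩
      exact ⟨i.castSucc, Fin.castSucc_le_castSucc_iff.2 hi, Fin.snoc_castSucc _ _ _⟩

theorem tri_of_CE [Fintype S] (h : CE L S) : Tri L S := by
  obtain ⟨b, hb1, hb2⟩ := exists_flag h (Fintype.card S) (le_refl _)
  have hfd : FiniteDimensional L (MonoidAlgebra L S) :=
    (MonoidAlgebra.basis S L).finiteDimensional_of_finite
  have hcard : Fintype.card (Fin (Fintype.card S)) = finrank L (MonoidAlgebra L S) := by
    rw [finrank_eq_card_basis (MonoidAlgebra.basis S L), Fintype.card_fin]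
  by_cases hne : Nonempty (Fin (Fintype.card S))
  · refine ⟨basisOfLinearIndependentOfCardEqFinrank hb1 hcard, ?_⟩
    intro x k
    rw [coe_basisOfLinearIndependentOfCardEqFinrank]
    exact hb2 x k
  · refine ⟨(MonoidAlgebra.basis S L).reindex (Fintype.equivFin S), fun x => ?_⟩
    exact absurd ⟨Fintype.equivFin S x⟩ hne

end

end Pool.Agent.TH969.MT
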