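import Pool.Agent.TH969.MT.Ech

set_option autoImplicit false
set_option linter.unusedSectionVars false

/-!
# The local change of coordinates for a semigroup with a triangular left regular representation
-/

namespace Pool.Agent.TH969.MT

open Finset Module

variable {L : Type*} [Field L] {S : Type*} [Semigroup S] [Fintype S]

theorem coeff_mul_eq [DecidableEq S] (x y : MonoidAlgebra L S) (z : S) :
    (x * y).coeff z = ∑ a, ∑ c, if a * c = z then x.coeff a * y.coeff c else 0 := by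
  rw [MonoidAlgebra.coeff_mul, Finsupp.sum_fintype]
  · refine Finset.sum_congr rfl fun a _ => ?_
    rw [Finsupp.sum_fintype]
    intro i
    simp
  · intro i
    simp

theorem tri_ext {s : ℕ} (b : Basis (Fin s) L (MonoidAlgebra L S))
    (hb : ∀ (x : S) k, MonoidAlgebra.single x (1 : L) * b k ∈
      Submodule.span L (b '' {j | j ≤ k})) (a : MonoidAlgebra L S) (k : Fin s) :
    a * b k ∈ Submodule.span L (b '' {j | j ≤ k}) := by
  rw [← (MonoidAlgebra.basis S L).sum_repr a, Finset.sum_mul]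
  refine Submodule.sum_mem _ fun x _ => ?_
  rw [smul_mul_assoc]
  exact Submodule.smul_mem _ _ (hb x k)

/-- The local data. -/
theorem local_dig [DecidableEq S] {s : ℕ} (hs : Fintype.card S = s)
    (b : Basis (Fin s) L (MonoidAlgebra L S))
    (hb : ∀ (x : S) k, MonoidAlgebra.single x (1 : L) * b k ∈
      Submodule.span L (b '' {j | j ≤ k})) :
    ∃ (e ρ : Fin s ≃ S) (T T' : Matrix (Fin s) (Fin s) L) (φ ψ : Fin s → ℝ),
      (∀ a, T a a = 1) ∧ (∀ a c, c < a → T a c = 0) ∧ (∀ a, T' a a = 1) ∧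
      (∀ a c, a < c → T' a c = 0) ∧ (∀ a, 0 ≤ φ a ∧ φ a ≤ s + 1) ∧
      (∀ a, 0 ≤ ψ a ∧ ψ a ≤ s + 1) ∧ ∑ a, φ a ≤ ∑ a, ψ a ∧
      ∀ p q z, (∑ x, ∑ y, if e x * ρ y = z then T p x * T' q y else 0) ≠ 0 →
        (if p ≠ q then (1 : ℝ) else 0) ≤ φ p - ψ q := by
  have hfd : FiniteDimensional L (MonoidAlgebra L S) := b.finiteDimensional_of_finite
  obtain ⟨W, C, φ, ψ, hW, hC, hφ, hψ, hφψ, hz⟩ := flags b (tri_ext b hb)
  obtain ⟨e, u, h1, h2, h3⟩ := ech (MonoidAlgebra.basis S L) s W hW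
  obtain ⟨e', v, h1', h2', h3'⟩ := ech (MonoidAlgebra.basis S L) s C hC
  have hbij : Function.Bijective e := by
    rw [Fintype.bijective_iff_injective_and_card, Fintype.card_fin, hs]
    exact ⟨ech_inj h2 h3, rfl⟩
  have hbij' : Function.Bijective e' := by
    rw [Fintype.bijective_iff_injective_and_card, Fintype.card_fin, hs]
    exact ⟨ech_inj h2' h3', rfl⟩
  let E : Fin s ≃ S := Equiv.ofBijective e hbij
  let R : Fin s ≃ S := Fin.revPerm.trans (Equiv.ofBijective e' hbij')
  have hE : ∀ x, E x = e x := fun x => rfl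
  have hR : ∀ x, R x = e' (Fin.rev x) := fun x => rfl
  refine ⟨E, R, fun p x => (u p).coeff (e x), fun q y => (v (Fin.rev q)).coeff (e' (Fin.rev y)),
    φ, ψ, fun a => h2 a, fun a c hca => h3 a c hca, fun a => h2' (Fin.rev a),
    fun a c hac => h3' (Fin.rev a) (Fin.rev c) (Fin.rev_lt_rev.2 hac), hφ, hψ, hφψ, ?_⟩
  intro p q z hne
  refine hz p q (u p) (h1 p) (v (Fin.rev q)) (h1' (Fin.rev q)) ?_
  intro h0
  apply hne
  have h4 : (u p * v (Fin.rev q)).coeff z = 0 := by rw [h0]; rfl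
  rw [coeff_mul_eq] at h4
  rw [← E.sum_comp] at h4
  refine Eq.trans ?_ h4
  refine Finset.sum_congr rfl fun x _ => ?_
  refine Eq.trans ?_ (R.sum_comp (fun c =>
    if E x * c = z then (u p).coeff (E x) * (v (Fin.rev q)).coeff c else 0))
  refine Finset.sum_congr rfl fun y _ => ?_
  rw [hE, hR]

end Pool.Agent.TH969.MT
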