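import Pool.Agent.TH969.MT.Tame
import Pool.Agent.W967.Rig.Num

set_option autoImplicit false
set_option linter.unusedSectionVars false

/-!
# Multiplication tables of small semigroups and tensor products of tame spaces
-/

namespace Pool.Agent.TH969.MT

open Matrix Finset Module
open Pool.Agent.W967.Rig
open Pool.Agent.W966.Kron (tens)

/-- The left regular representation of `S` over `L` is triangular in some basis. -/
def Tri (L S : Type) [Field L] [Semigroup S] [Fintype S] : Prop :=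
  ∃ b : Basis (Fin (Fintype.card S)) L (MonoidAlgebra L S),
    ∀ (x : S) k, MonoidAlgebra.single x (1 : L) * b k ∈ Submodule.span L (b '' {j | j ≤ k})

theorem num_rank (d : ℕ) (d1 L : ℝ) (hL : 0 < L) :
    Real.exp L * Real.exp (-((d1 * L) ^ 2 / (8 * ((d : ℝ) + 1) ^ 2 * (2 * L)))) =
      Real.exp ((1 - d1 ^ 2 / (16 * ((d : ℝ) + 1) ^ 2)) * L) := by
  have hM : (0 : ℝ) < (d : ℝ) + 1 := by positivity
  rw [← Real.exp_add]
  congr 1
  field_simp
  ring

theorem count_le {n : ℕ} (c : Fin n → ℕ) (hc : ∀ i, 1 < c i) :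
    (n : ℝ) ≤ 2 * Real.log (∏ i, (c i : ℝ)) := by
  have h1 : (n : ℝ) * Real.log 2 ≤ Real.log (∏ i, (c i : ℝ)) := by
    rw [Real.log_prod (fun i _ => by
      have := hc i
      positivity)]
    have h2 : (n : ℝ) * Real.log 2 = ∑ _i : Fin n, Real.log 2 := by simp
    rw [h2]
    refine Finset.sum_le_sum fun i _ => Real.log_le_log (by norm_num) ?_
    exact_mod_cast hc i
  have h3 := log_two_gt'
  have h4 : (0 : ℝ) ≤ n := by positivity
  nlinarith

theorem main_rs (d : ℕ) (hd : 0 < d) (ε : ℝ) (hε : 0 < ε) :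
    ∃ γ : ℝ, 0 < γ ∧ ∀ (F : Type) [Field F], ∃ C : ℝ, 0 < C ∧
      ∀ (n : ℕ) (S : Fin n → Type) [∀ i, Semigroup (S i)]
      [∀ i, Fintype (S i)], (∀ i, 1 < Fintype.card (S i)) → (∀ i, Fintype.card (S i) ≤ d) →
      (∀ i, Tri (AlgebraicClosure F) (S i)) → 2 ≤ ∏ i, Fintype.card (S i) →
      ∀ f : (∀ i, S i) → F,
      RS (Real.exp (ε * Real.log (∏ i, (Fintype.card (S i) : ℝ))))
        (C * Real.exp ((1 - γ) * Real.log (∏ i, (Fintype.card (S i) : ℝ))))
        (Matrix.of fun x y : (∀ i, S i) => f (x * y)) := by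
  classical
  obtain ⟨l1, d1, hl1, hl1', hd1, hsmall⟩ := exists_small d hd ε hε
  have hM : (0 : ℝ) < (d : ℝ) + 1 := by positivity
  refine ⟨d1 ^ 2 / (16 * ((d : ℝ) + 1) ^ 2), by positivity, ?_⟩
  intro F _
  obtain ⟨K, iK, iA, iFD, hK⟩ := exists_ext F d
  refine ⟨6 * Module.finrank F K, ?_, ?_⟩
  · have : 0 < Module.finrank F K := Module.finrank_pos
    positivity
  intro n S _ _ hS1 hSd hT hN f
  set N : ℝ := ∏ i, (Fintype.card (S i) : ℝ) with hNdef
  have hN2 : (2 : ℝ) ≤ N := by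
    rw [hNdef]
    exact_mod_cast hN
  set L : ℝ := Real.log N with hL
  have hL0 : 0 < L := Real.log_pos (by linarith)
  have hNexp : N = Real.exp L := (Real.exp_log (by linarith)).symm
  let sz : Fin n → ℕ := fun i => Fintype.card (S i)
  let g : ∀ i, S i ≃ Fin (sz i) := fun i => Fintype.equivFin (S i)
  have hDD : ∀ i, Nonempty (DD K (tab (g i))) := fun i => by
    obtain ⟨b, hb⟩ := hT i
    exact hK (sz i) (hSd i) (tab (g i)) (DD.of_tri (g i) b hb)
  have key := rs_table sz (fun i => tab (g i)) (fun i => (hDD i).some) hSd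
    (fun z => algebraMap F K (f fun i => (g i).symm (z i))) (count_le sz hS1) (by positivity)
    (l := l1) (s := d1 * L) hl1 hl1' (by positivity)
  have key2 := key.submatrix (fun (x : ∀ i, S i) i => g i (x i))
    (fun (x : ∀ i, S i) i => g i (x i)) (by
      intro x y hxy
      funext i
      exact (g i).injective (congrFun hxy i))
  have e0 : (Matrix.of fun x y : (∀ i, Fin (sz i)) =>
      algebraMap F K (f fun i => (g i).symm (tab (g i) (x i) (y i)))).submatrix
      (fun (x : ∀ i, S i) i => g i (x i)) (fun (x : ∀ i, S i) i => g i (x i)) =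
      (Matrix.of fun x y : (∀ i, S i) => f (x * y)).map (algebraMap F K) := by
    ext x y
    simp only [Matrix.submatrix_apply, Matrix.of_apply, Matrix.map_apply, tab,
      Equiv.symm_apply_apply]
    rfl
  rw [e0] at key2
  have hcardN : (Fintype.card (∀ i, Fin (sz i)) : ℝ) = N := by
    rw [Fintype.card_pi]
    simp only [Fintype.card_fin, sz]
    push_cast
    rfl
  refine key2.descend.mono (Real.exp_le_exp.2 ?_) (le_of_eq ?_)
  · have e1 : 3 * (d1 * L * Real.log (1 / l1) + l1 * d * (2 * L)) =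
        3 * (d1 * Real.log (1 / l1) + 2 * d * l1) * L := by ring
    refine le_trans (le_of_eq e1) ?_
    refine mul_le_mul_of_nonneg_right ?_ hL0.le
    linarith
  · rw [hcardN, hNexp]
    have e2 := num_rank d d1 L hL0
    refine Eq.trans (congrArg (fun t => 6 * t * (finrank F K : ℝ)) e2) ?_
    ring

theorem main_space (d : ℕ) (hd : 0 < d) (ε : ℝ) (hε : 0 < ε) :
    ∃ γ : ℝ, 0 < γ ∧ ∀ (F K : Type) [Field F] [Field K] [Algebra F K] [FiniteDimensional F K]
      (n : ℕ) (sz : Fin n → ℕ) (𝓐 : ∀ i, Submodule K (Matrix (Fin (sz i)) (Fin (sz i)) K))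
      (M : Matrix (∀ i, Fin (sz i)) (∀ i, Fin (sz i)) F), (∀ i, 1 < sz i) → (∀ i, sz i ≤ d) →
      (∀ i, Tame (𝓐 i)) → 2 ≤ ∏ i, sz i →
      M.map (algebraMap F K) ∈ Submodule.span K {B | ∃ A : ∀ i, Matrix (Fin (sz i)) (Fin (sz i)) K,
        (∀ i, A i ∈ 𝓐 i) ∧ B = tens A} →
      RS (Real.exp (ε * Real.log (∏ i, (sz i : ℝ))))
        (6 * finrank F K * Real.exp ((1 - γ) * Real.log (∏ i, (sz i : ℝ)))) M := by
  classical
  obtain ⟨l1, d1, hl1, hl1', hd1, hsmall⟩ := exists_small d hd ε hε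
  have hM : (0 : ℝ) < (d : ℝ) + 1 := by positivity
  refine ⟨d1 ^ 2 / (16 * ((d : ℝ) + 1) ^ 2), by positivity, ?_⟩
  intro F K _ _ _ _ n sz 𝓐 M hS1 hSd hT hN hMs
  set N : ℝ := ∏ i, (sz i : ℝ) with hNdef
  have hN2 : (2 : ℝ) ≤ N := by
    rw [hNdef]
    exact_mod_cast hN
  set L : ℝ := Real.log N with hL
  have hL0 : 0 < L := Real.log_pos (by linarith)
  have hNexp : N = Real.exp L := (Real.exp_log (by linarith)).symm
  have hDS : ∀ i, Nonempty (DS K (𝓐 i : Set (Matrix (Fin (sz i)) (Fin (sz i)) K))) := fun i =>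
    ds_of_tame (𝓐 i) (hT i)
  have key := rs_space sz (fun i => (𝓐 i : Set (Matrix (Fin (sz i)) (Fin (sz i)) K)))
    (fun i => (hDS i).some) hSd (count_le sz hS1) (by positivity)
    (l := l1) (s := d1 * L) hl1 hl1' (by positivity) (M.map (algebraMap F K)) hMs
  have hcardN : (Fintype.card (∀ i, Fin (sz i)) : ℝ) = N := by
    rw [Fintype.card_pi]
    simp only [Fintype.card_fin]
    push_cast
    rfl
  refine key.descend.mono (Real.exp_le_exp.2 ?_) (le_of_eq ?_)
  · have e1 : 3 * (d1 * L * Real.log (1 / l1) + l1 * d * (2 * L)) =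
        3 * (d1 * Real.log (1 / l1) + 2 * d * l1) * L := by ring
    refine le_trans (le_of_eq e1) ?_
    refine mul_le_mul_of_nonneg_right ?_ hL0.le
    linarith
  · rw [hcardN, hNexp]
    have e2 := num_rank d d1 L hL0
    refine Eq.trans (congrArg (fun t => 6 * t * (finrank F K : ℝ)) e2) ?_
    ring

/-- From the matrix predicate to the statement with ranks and numbers of entries. -/
theorem near_of_rs {F X : Type} [Field F] [Fintype X] {γ C ε : ℝ} (M : Matrix X X F)
    (hN : 2 ≤ Fintype.card X) (hC : C ≤ (Fintype.card X : ℝ) ^ (γ / 2))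
    (h : RS (Real.exp (ε * Real.log (Fintype.card X)))
      (C * Real.exp ((1 - γ) * Real.log (Fintype.card X))) M) :
    ∃ B : Matrix X X F, (B.rank : ℝ) ≤ (Fintype.card X : ℝ) ^ (1 - γ / 2) ∧
      ∀ x, (Nat.card {y // M x y ≠ B x y} : ℝ) ≤ (Fintype.card X : ℝ) ^ ε := by
  classical
  obtain ⟨S, R, hSR, hR, hS⟩ := h
  have hNr : (2 : ℝ) ≤ Fintype.card X := by exact_mod_cast hN
  have hN0 : (0 : ℝ) < Fintype.card X := by linarith
  refine ⟨R, hR.rank_le.trans ?_, fun x => ?_⟩
  · rw [mul_comm (1 - γ), ← Real.rpow_def_of_pos hN0]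
    calc C * (Fintype.card X : ℝ) ^ (1 - γ)
        ≤ (Fintype.card X : ℝ) ^ (γ / 2) * (Fintype.card X : ℝ) ^ (1 - γ) :=
          mul_le_mul_of_nonneg_right hC (by positivity)
      _ = (Fintype.card X : ℝ) ^ (1 - γ / 2) := by
          rw [← Real.rpow_add hN0]
          congr 1
          ring
  · rw [Real.rpow_def_of_pos hN0, mul_comm (Real.log _)]
    refine le_trans ?_ (hS x)
    rw [Nat.card_eq_fintype_card, Fintype.card_subtype]
    norm_cast
    refine Finset.card_le_card ?_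
    intro y hy
    rw [Finset.mem_filter] at hy ⊢
    refine ⟨hy.1, fun h0 => hy.2 ?_⟩
    rw [hSR, Matrix.add_apply, h0, zero_add]

end Pool.Agent.TH969.MT
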