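import Pool.Agent.TH969.MT.Final

set_option autoImplicit false
set_option linter.unusedSectionVars false

/-!
# From rows with few changed entries to rigidity
-/

namespace Pool.Agent.TH969.MT

open Matrix Finset Module

theorem not_rigid_core (γ η : ℝ) (hγ : 0 < γ) (hη : 0 < η) : ∃ N₁ : ℕ, ∀ (δ : ℝ) (X F : Type)
    [Fintype X] [Field F] (M B : Matrix X X F), N₁ ≤ Fintype.card X →
      (B.rank : ℝ) ≤ (Fintype.card X : ℝ) ^ (1 - γ) →
      (∀ x, (Nat.card {y // M x y ≠ B x y} : ℝ) ≤ (Fintype.card X : ℝ) ^ δ) →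
      ∃ R S : Matrix X X F, M = R + S ∧ (R.rank : ℝ) ≤ η * Fintype.card X ∧
        (Nat.card {p : X × X // S p.1 p.2 ≠ 0} : ℝ) ≤ (Fintype.card X : ℝ) ^ (1 + δ) := by
  classical
  obtain ⟨N₁, hN₁⟩ := const_le (1 / η) hγ
  refine ⟨max 1 N₁, ?_⟩
  intro δ X F _ _ M B hN hB hM
  have hX1 : 1 ≤ Fintype.card X := (le_max_left _ _).trans hN
  have hX : (0 : ℝ) < Fintype.card X := by exact_mod_cast hX1
  have h1 := hN₁ _ ((le_max_right _ _).trans hN)
  refine ⟨B, M - B, by simp, hB.trans ?_, ?_⟩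
  · have e1 : (Fintype.card X : ℝ) ^ (1 - γ) * (Fintype.card X : ℝ) ^ γ = Fintype.card X := by
      rw [← Real.rpow_add hX]
      simp
    have h2 : 0 < (Fintype.card X : ℝ) ^ (1 - γ) := Real.rpow_pos_of_pos hX _
    have h3 : 1 ≤ η * (Fintype.card X : ℝ) ^ γ := by
      rw [div_le_iff₀ hη] at h1
      linarith
    calc (Fintype.card X : ℝ) ^ (1 - γ)
        ≤ (Fintype.card X : ℝ) ^ (1 - γ) * (η * (Fintype.card X : ℝ) ^ γ) :=
          le_mul_of_one_le_right h2.le h3
      _ = η * ((Fintype.card X : ℝ) ^ (1 - γ) * (Fintype.card X : ℝ) ^ γ) := by ring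
      _ = η * Fintype.card X := by rw [e1]
  · have e1 : (Nat.card {p : X × X // (M - B) p.1 p.2 ≠ 0} : ℝ) =
        ∑ x, (Nat.card {y // M x y ≠ B x y} : ℝ) := by
      have e2 : {p : X × X // (M - B) p.1 p.2 ≠ 0} ≃ Σ x : X, {y : X // M x y ≠ B x y} :=
        { toFun := fun p => ⟨p.1.1, ⟨p.1.2, fun h => p.2 (by
            rw [Matrix.sub_apply, h, sub_self])⟩⟩
          invFun := fun q => ⟨(q.1, q.2.1), fun h => q.2.2 (by
            rw [Matrix.sub_apply] at h
            exact sub_eq_zero.1 h)⟩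
          left_inv := fun _ => rfl
          right_inv := fun _ => rfl }
      rw [Nat.card_congr e2, Nat.card_sigma]
      push_cast
      rfl
    rw [e1]
    calc ∑ x, (Nat.card {y // M x y ≠ B x y} : ℝ)
        ≤ ∑ _x : X, (Fintype.card X : ℝ) ^ δ := Finset.sum_le_sum fun x _ => hM x
      _ = (Fintype.card X : ℝ) ^ (1 + δ) := by
          rw [Finset.sum_const, nsmul_eq_mul, Finset.card_univ, Real.rpow_add hX, Real.rpow_one]

end Pool.Agent.TH969.MT
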