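import Pool.Agent.TH969.MT.Tame

set_option autoImplicit false
set_option linter.unusedSectionVars false

/-!
# Commuting families and pencils are tame
-/

namespace Pool.Agent.TH969.MT

open Matrix Finset Module

variable {K : Type} [Field K]

section Flag

variable {V : Type*} [AddCommGroup V] [Module K V] [FiniteDimensional K V] {ι : Type*}

/-- Commuting operators over an algebraically closed field have a common eigenvector. -/
theorem common_eig [IsAlgClosed K] [Nontrivial V] (T : ι → Module.End K V)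
    (hT : ∀ x y, T x * T y = T y * T x) : ∃ v : V, v ≠ 0 ∧ ∀ x, ∃ c : K, T x v = c • v := by
  have hT' : ∀ x y v, T x (T y v) = T y (T x v) := fun x y v =>
    LinearMap.congr_fun (hT x y) v
  have main : ∀ (n : ℕ) (U : Submodule K V), U ≠ ⊥ → (∀ x, ∀ v ∈ U, T x v ∈ U) →
      finrank K U = n → ∃ v : V, v ≠ 0 ∧ ∀ x, ∃ c : K, T x v = c • v := by
    intro n
    induction n using Nat.strong_induction_on with
    | _ n ih =>
    intro U hU hinv hn
    by_cases hall : ∀ x, ∃ c : K, ∀ v ∈ U, T x v = c • v
    · obtain ⟨v, hv, hv0⟩ := Submodule.exists_mem_ne_zero_of_ne_bot hU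
      exact ⟨v, hv0, fun x => (hall x).imp fun c hc => hc v hv⟩
    · push Not at hall
      obtain ⟨x, hx⟩ := hall
      have hnt : Nontrivial U := Submodule.nontrivial_iff_ne_bot.2 hU
      obtain ⟨c, hc⟩ := Module.End.exists_eigenvalue ((T x).restrict (hinv x))
      obtain ⟨w, hw⟩ := hc.exists_hasEigenvector
      have hw1 : T x w.1 = c • w.1 := congrArg Subtype.val hw.apply_eq_smul
      have hw0 : w.1 ≠ 0 := fun h0 => hw.2 (Subtype.ext h0)
      have hlt : U ⊓ Module.End.eigenspace (T x) c < U := by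
        refine lt_of_le_of_ne inf_le_left fun heq => ?_
        obtain ⟨v, hv, hv2⟩ := hx c
        rw [← heq] at hv
        exact hv2 (Module.End.mem_eigenspace_iff.1 hv.2)
      refine ih _ ?_ (U ⊓ Module.End.eigenspace (T x) c) ?_ ?_ rfl
      · rw [← hn]
        exact Submodule.finrank_lt_finrank_of_lt hlt
      · intro hbot
        apply hw0
        have : w.1 ∈ U ⊓ Module.End.eigenspace (T x) c :=
          ⟨w.2, Module.End.mem_eigenspace_iff.2 hw1⟩
        rw [hbot] at this
        exact (Submodule.mem_bot K).1 this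
      · rintro y v ⟨hv1, hv2⟩
        refine ⟨hinv y v hv1, Module.End.mem_eigenspace_iff.2 ?_⟩
        rw [hT', Module.End.mem_eigenspace_iff.1 hv2, map_smul]
  exact main _ ⊤ top_ne_bot (fun _ _ _ => Submodule.mem_top) rfl

/-- Commuting operators over an algebraically closed field are simultaneously triangular. -/
theorem comm_flag [IsAlgClosed K] (T : ι → Module.End K V) (hT : ∀ x y, T x * T y = T y * T x)
    (k : ℕ) (hk : k ≤ finrank K V) :
    ∃ b : Fin k → V, LinearIndependent K b ∧
      ∀ x j, T x (b j) ∈ Submodule.span K (b '' {i | i ≤ j}) := by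
  induction k with
  | zero =>
    exact ⟨Fin.elim0, linearIndependent_empty_type, fun x j => j.elim0⟩
  | succ k ih =>
    obtain ⟨b, hb1, hb2⟩ := ih (by omega)
    set U := Submodule.span K (Set.range b) with hU
    have hUt : U ≠ ⊤ := by
      intro hUt
      have h1 := finrank_span_eq_card hb1
      rw [← hU, hUt, finrank_top, Fintype.card_fin] at h1
      omega
    have hinv : ∀ x, U ≤ U.comap (T x) := by
      intro x
      rw [hU, Submodule.span_le]
      rintro _ ⟨j, rfl⟩
      exact Submodule.span_mono (Set.image_subset_range _ _) (hb2 x j)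
    have hnt : Nontrivial (V ⧸ U) := Submodule.Quotient.nontrivial_iff.2 hUt
    obtain ⟨v, hv, hv2⟩ := common_eig (fun x => U.mapQ U (T x) (hinv x)) (by
      intro x y
      apply LinearMap.ext
      intro q
      obtain ⟨a, rfl⟩ := Submodule.Quotient.mk_surjective U q
      change Submodule.Quotient.mk (T x (T y a)) = Submodule.Quotient.mk (T y (T x a))
      exact congrArg _ (LinearMap.congr_fun (hT x y) a))
    obtain ⟨v, rfl⟩ := Submodule.Quotient.mk_surjective U v
    have hv1 : v ∉ U := fun ha => hv ((Submodule.Quotient.mk_eq_zero U).2 ha)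
    refine ⟨Fin.snoc (α := fun _ => V) b v, linearIndependent_finSnoc.2 ⟨hb1, hv1⟩, ?_⟩
    intro x j
    refine Fin.lastCases ?_ (fun j => ?_) j
    · obtain ⟨c, hc⟩ := hv2 x
      have hc' : T x v - c • v ∈ U := (Submodule.Quotient.eq U).1 hc
      rw [Fin.snoc_last]
      have h1 : T x v = (T x v - c • v) + c • v := by abel
      rw [h1]
      refine Submodule.add_mem _ ?_ (Submodule.smul_mem _ _ (Submodule.subset_span
        ⟨Fin.last k, Fin.le_last _, Fin.snoc_last _ _⟩))
      refine Submodule.span_mono ?_ hc'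
      rintro _ ⟨i, rfl⟩
      exact ⟨i.castSucc, Fin.le_last _, Fin.snoc_castSucc _ _ _⟩
    · rw [Fin.snoc_castSucc]
      refine Submodule.span_mono ?_ (hb2 x j)
      rintro _ ⟨i, hi, rfl⟩
      exact ⟨i.castSucc, Fin.castSucc_le_castSucc_iff.2 hi, Fin.snoc_castSucc _ _ _⟩

theorem finrank_lt_of_map (A : V →ₗ[K] V) (U D : Submodule K V) (h : U.map A = D) (z : V)
    (hz : z ∈ LinearMap.ker A) (hz0 : z ≠ 0) (hzU : z ∈ U) : finrank K D < finrank K U := by
  let f : U →ₗ[K] V := A ∘ₗ U.subtype
  have h1 := LinearMap.finrank_range_add_finrank_ker f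
  have h2 : LinearMap.range f = D := by
    rw [LinearMap.range_comp, Submodule.range_subtype]
    exact h
  have h3 : LinearMap.ker f ≠ ⊥ := by
    intro h0
    have h4 : (⟨z, hzU⟩ : U) ∈ LinearMap.ker f := LinearMap.mem_ker.1 hz
    rw [h0, Submodule.mem_bot] at h4
    exact hz0 (congrArg Subtype.val h4)
  have h5 : 0 < finrank K (LinearMap.ker f) := Submodule.one_le_finrank_iff.2 h3
  rw [h2] at h1
  omega

/-- A singular pencil has a shrunk subspace. -/
theorem singular_pencil [Infinite K] (A B : V →ₗ[K] V)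
    (h : ∀ t : K, ¬ Function.Injective (A + t • B)) :
    ∃ C D : Submodule K V, C.map A ≤ D ∧ C.map B ≤ D ∧ finrank K D < finrank K C := by
  -- a value of the parameter where the rank is maximal
  obtain ⟨t0, ht0⟩ : ∃ t0 : K, ∀ t : K, finrank K (LinearMap.range (A + t • B)) ≤
      finrank K (LinearMap.range (A + t0 • B)) := by
    have hbdd : BddAbove (Set.range fun t : K => finrank K (LinearMap.range (A + t • B))) :=
      ⟨finrank K V, by rintro _ ⟨t, rfl⟩; exact Submodule.finrank_le _⟩
    obtain ⟨t0, ht0⟩ := Nat.sSup_mem (Set.range_nonempty _) hbdd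
    exact ⟨t0, fun t => (le_csSup hbdd ⟨t, rfl⟩).trans (le_of_eq ht0.symm)⟩
  set A' := A + t0 • B with hA'
  have hmax : ∀ t : K, finrank K (LinearMap.range (A' + t • B)) ≤
      finrank K (LinearMap.range A') := by
    intro t
    have e1 : A' + t • B = A + (t0 + t) • B := by rw [hA', add_smul, add_assoc]
    rw [e1]
    exact ht0 _
  have hker : LinearMap.ker A' ≠ ⊥ := fun h0 => h t0 (LinearMap.ker_eq_bot.1 h0)
  -- the Wong sequence
  let W : ℕ → Submodule K V := fun n => Nat.rec ⊥ (fun _ U => (U.comap A').map B) n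
  have W0 : W 0 = ⊥ := rfl
  have Ws : ∀ n, W (n + 1) = ((W n).comap A').map B := fun n => rfl
  have Wmono : Monotone W := by
    refine monotone_nat_of_le_succ fun n => ?_
    induction n with
    | zero => rw [W0]; exact bot_le
    | succ n ih =>
      rw [Ws, Ws (n + 1)]
      exact Submodule.map_mono (Submodule.comap_mono ih)
  have hin : ∀ n, ∀ x ∈ W n, ∀ t : K, t ≠ 0 → x ∈ LinearMap.range (A' + t • B) := by
    intro n
    induction n with
    | zero =>
      intro x hx t _
      rw [W0, Submodule.mem_bot] at hx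
      rw [hx]
      exact Submodule.zero_mem _
    | succ n ih =>
      intro x hx t ht
      rw [Ws] at hx
      obtain ⟨v, hv, rfl⟩ := hx
      obtain ⟨u, hu⟩ := ih _ hv t ht
      refine ⟨t⁻¹ • (v - u), ?_⟩
      rw [map_smul, map_sub, hu, LinearMap.add_apply, LinearMap.smul_apply, add_sub_cancel_left,
        smul_smul, inv_mul_cancel₀ ht, one_smul]
  have hrange : ∀ n, W n ≤ LinearMap.range A' := by
    intro n x hx
    by_contra hxr
    -- a section of `A'`
    obtain ⟨σ, hσ⟩ := LinearMap.exists_rightInverse_of_surjective A'.rangeRestrict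
      (LinearMap.range_rangeRestrict A')
    have hσ' : ∀ w, A' (σ w) = w.1 := fun w => congrArg Subtype.val (LinearMap.congr_fun hσ w)
    let Ψ : K → (LinearMap.range A' × K →ₗ[K] V) := fun t =>
      LinearMap.coprod ((A' + t • B) ∘ₗ σ) (LinearMap.toSpanSingleton K V x)
    have hΨ : ∀ t p, Ψ t p = A' (σ p.1) + t • B (σ p.1) + p.2 • x := fun t p => rfl
    have hinj : LinearMap.ker (Ψ 0) = ⊥ := by
      rw [LinearMap.ker_eq_bot']
      rintro ⟨w, c⟩ hp
      rw [hΨ, zero_smul, add_zero, hσ'] at hp
      have hc : c = 0 := by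
        by_contra hc
        apply hxr
        have h1 : x = -(c⁻¹ • w.1) := by
          have h2 : c • x = -w.1 := eq_neg_of_add_eq_zero_right hp
          calc x = c⁻¹ • (c • x) := by rw [smul_smul, inv_mul_cancel₀ hc, one_smul]
            _ = -(c⁻¹ • w.1) := by rw [h2, smul_neg]
        rw [h1]
        exact Submodule.neg_mem _ (Submodule.smul_mem _ _ w.2)
      simp only [hc, zero_smul, add_zero] at hp
      rw [hc]
      exact Prod.ext (Subtype.ext hp) rfl
    obtain ⟨Λ, hΛ⟩ := LinearMap.exists_leftInverse_of_injective (Ψ 0) hinj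
    let M : Module.End K (LinearMap.range A' × K) :=
      Λ ∘ₗ B ∘ₗ σ ∘ₗ LinearMap.fst K (LinearMap.range A') K
    have hfin : {μ : K | M.HasEigenvalue μ}.Finite := Module.End.finite_hasEigenvalue M
    obtain ⟨μ, hμ⟩ := (hfin.union (Set.finite_singleton (0 : K))).exists_notMem
    rw [Set.mem_union, not_or] at hμ
    have hμ0 : μ ≠ 0 := hμ.2
    have hμM : ¬ M.HasEigenvalue μ := hμ.1
    have hinj2 : Function.Injective (Ψ (-μ⁻¹)) := by
      rw [← LinearMap.ker_eq_bot, LinearMap.ker_eq_bot']
      intro p hp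
      have h1 : Λ (Ψ (-μ⁻¹) p) = p + (-μ⁻¹) • M p := by
        have h2 : Ψ (-μ⁻¹) p = Ψ 0 p + (-μ⁻¹) • B (σ p.1) := by
          rw [hΨ, hΨ, zero_smul, add_zero]
          abel
        rw [h2, map_add, map_smul]
        congr 1
        exact LinearMap.congr_fun hΛ p
      rw [hp, map_zero] at h1
      have h3 : M p = μ • p := by
        have h4 : μ⁻¹ • M p = p := by
          have h5 : p - μ⁻¹ • M p = 0 := by
            rw [sub_eq_add_neg, ← neg_smul]
            exact h1.symm
          exact (sub_eq_zero.1 h5).symm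
        calc M p = μ • (μ⁻¹ • M p) := by rw [smul_smul, mul_inv_cancel₀ hμ0, one_smul]
          _ = μ • p := by rw [h4]
      by_contra hp0
      exact hμM (Module.End.hasEigenvalue_of_hasEigenvector
        ⟨Module.End.mem_eigenspace_iff.2 h3, hp0⟩)
    have ht : -μ⁻¹ ≠ 0 := neg_ne_zero.2 (inv_ne_zero hμ0)
    have hle : LinearMap.range (Ψ (-μ⁻¹)) ≤ LinearMap.range (A' + (-μ⁻¹) • B) := by
      rintro _ ⟨p, rfl⟩
      rw [hΨ]
      exact Submodule.add_mem _ ⟨σ p.1, rfl⟩ (Submodule.smul_mem _ _ (hin n x hx _ ht))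
    have h6 := Submodule.finrank_mono hle
    rw [LinearMap.finrank_range_of_inj hinj2, Module.finrank_prod, finrank_self] at h6
    have h7 := hmax (-μ⁻¹)
    omega
  -- the limit of the Wong sequence
  obtain ⟨m, hm⟩ := monotone_stabilizes_iff_noetherian.2 (inferInstance : IsNoetherian K V)
    ⟨W, Wmono⟩
  have hWm : W m = W (m + 1) := hm (m + 1) (Nat.le_succ m)
  have hBC : ((W m).comap A').map B = W m := by
    rw [← Ws]
    exact hWm.symm
  have hAC : ((W m).comap A').map A' ≤ W m := Submodule.map_comap_le _ _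
  have hAC' : ((W m).comap A').map A' = W m := by
    rw [Submodule.map_comap_eq, inf_eq_right]
    exact hrange m
  refine ⟨(W m).comap A', W m, ?_, hBC.le, ?_⟩
  · rintro _ ⟨c, hc, rfl⟩
    have h1 : A c = A' c - t0 • B c := by
      rw [hA', LinearMap.add_apply, LinearMap.smul_apply, add_sub_cancel_right]
    rw [h1]
    refine Submodule.sub_mem _ hc (Submodule.smul_mem _ _ ?_)
    rw [← hBC]
    exact ⟨c, hc, rfl⟩
  · obtain ⟨z, hz, hz0⟩ := Submodule.exists_mem_ne_zero_of_ne_bot hker
    have hzc : z ∈ (W m).comap A' := by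
      rw [Submodule.mem_comap, LinearMap.mem_ker.1 hz]
      exact Submodule.zero_mem _
    exact finrank_lt_of_map A' _ _ hAC' z hz hz0 hzc

end Flag

end Pool.Agent.TH969.MT
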