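import Pool.Agent.TH969.MT.Asm

set_option autoImplicit false
set_option linter.unusedSectionVars false

/-!
# Tensor products of small matrix spaces
-/

namespace Pool.Agent.TH969.MT

open Matrix Finset Module
open Pool.Agent.W967.Rig
open Pool.Agent.W966.Kron (tens tens_mul tens_transpose)

variable {K : Type} [Field K]

/-- The local data of a set `𝓐` of matrices. -/
structure DS (K : Type) [Field K] {s : ℕ} (𝓐 : Set (Matrix (Fin s) (Fin s) K)) where
  /-- the order of the rows -/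
  e : Fin s ≃ Fin s
  /-- the order of the columns -/
  r : Fin s ≃ Fin s
  /-- the row transformation -/
  T : Matrix (Fin s) (Fin s) K
  /-- the column transformation -/
  T' : Matrix (Fin s) (Fin s) K
  /-- the row weight -/
  φ : Fin s → ℝ
  /-- the column weight -/
  ψ : Fin s → ℝ
  T_diag : ∀ a, T a a = 1
  T_up : ∀ a c, c < a → T a c = 0
  T'_diag : ∀ a, T' a a = 1
  T'_low : ∀ a c, a < c → T' a c = 0
  hφ : ∀ a, 0 ≤ φ a ∧ φ a ≤ s + 1
  hψ : ∀ a, 0 ≤ ψ a ∧ ψ a ≤ s + 1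
  hφψ : ∑ a, φ a ≤ ∑ a, ψ a
  hz : ∀ A ∈ 𝓐, ∀ p q, (T * A.submatrix e r * T'ᵀ) p q ≠ 0 →
    (if p ≠ q then (1 : ℝ) else 0) ≤ φ p - ψ q

/-- Flags produce local data. -/
theorem ds_of_flags {s : ℕ} (𝓐 : Set (Matrix (Fin s) (Fin s) K))
    (W C : ℕ → Submodule K (Fin s → K)) (φ ψ : Fin s → ℝ)
    (hW : ∀ k < s, k + 1 ≤ finrank K (W k)) (hC : ∀ k < s, k + 1 ≤ finrank K (C k))
    (hφ : ∀ a, 0 ≤ φ a ∧ φ a ≤ s + 1) (hψ : ∀ a, 0 ≤ ψ a ∧ ψ a ≤ s + 1)
    (hφψ : ∑ a, φ a ≤ ∑ a, ψ a)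
    (hz : ∀ p q : Fin s, ∀ A ∈ 𝓐, ∀ w ∈ W p, ∀ c ∈ C (Fin.rev q), w ⬝ᵥ (A *ᵥ c) ≠ 0 →
      (if p ≠ q then (1 : ℝ) else 0) ≤ φ p - ψ q) : Nonempty (DS K 𝓐) := by
  obtain ⟨e, u, h1, h2, h3⟩ := ech (Pi.basisFun K (Fin s)) s W hW
  obtain ⟨e', v, h1', h2', h3'⟩ := ech (Pi.basisFun K (Fin s)) s C hC
  have hbij : Function.Bijective e := by
    rw [Fintype.bijective_iff_injective_and_card]
    exact ⟨ech_inj h2 h3, rfl⟩
  have hbij' : Function.Bijective e' := by
    rw [Fintype.bijective_iff_injective_and_card]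
    exact ⟨ech_inj h2' h3', rfl⟩
  let E : Fin s ≃ Fin s := Equiv.ofBijective e hbij
  let R : Fin s ≃ Fin s := Fin.revPerm.trans (Equiv.ofBijective e' hbij')
  have hE : ∀ x, E x = e x := fun x => rfl
  have hR : ∀ x, R x = e' (Fin.rev x) := fun x => rfl
  refine ⟨⟨E, R, Matrix.of fun p x => u p (E x), Matrix.of fun q y => v (Fin.rev q) (R y),
    φ, ψ, fun a => h2 a, fun a c hca => h3 a c hca, fun a => h2' (Fin.rev a),
    fun a c hac => h3' (Fin.rev a) (Fin.rev c) (Fin.rev_lt_rev.2 hac), hφ, hψ, hφψ, ?_⟩⟩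
  intro A hA p q hne
  refine hz p q A hA (u p) (h1 p) (v (Fin.rev q)) (h1' (Fin.rev q)) ?_
  convert hne using 1
  simp only [Matrix.mul_apply, Matrix.transpose_apply, Matrix.submatrix_apply, Finset.sum_mul,
    Matrix.of_apply, dotProduct, Matrix.mulVec, Finset.mul_sum]
  rw [Finset.sum_comm, ← R.sum_comp]
  refine Finset.sum_congr rfl fun y _ => ?_
  rw [← E.sum_comp]
  refine Finset.sum_congr rfl fun x _ => ?_
  ring

section

variable {n : ℕ} (sz : Fin n → ℕ)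

/-- The matrices of a tensor product of matrix spaces with local data. -/
theorem rs_space (𝓐 : ∀ i, Set (Matrix (Fin (sz i)) (Fin (sz i)) K)) (D : ∀ i, DS K (𝓐 i))
    {d : ℕ} (hd : ∀ i, sz i ≤ d) {k : ℝ} (hk : (n : ℝ) ≤ k) (hk0 : 0 < k)
    {l s : ℝ} (hl : 0 < l) (hl1 : l ≤ 1) (hs : 0 ≤ s)
    (M : Matrix (∀ i, Fin (sz i)) (∀ i, Fin (sz i)) K)
    (hMs : M ∈ Submodule.span K {B | ∃ A : ∀ i, Matrix (Fin (sz i)) (Fin (sz i)) K,
      (∀ i, A i ∈ 𝓐 i) ∧ B = tens A}) :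
    RS (Real.exp (3 * (s * Real.log (1 / l) + l * d * k)))
      (6 * (Fintype.card (∀ i, Fin (sz i)) * Real.exp (-(s ^ 2 / (8 * ((d : ℝ) + 1) ^ 2 * k)))))
      M := by
  classical
  set E := Real.exp (s * Real.log (1 / l) + l * d * k) with hE
  set R := 2 * (Fintype.card (∀ i, Fin (sz i)) * Real.exp (-(s ^ 2 / (8 * ((d : ℝ) + 1) ^ 2 * k))))
    with hR
  have hM : (0 : ℝ) < (d : ℝ) + 1 := by positivity
  have hszd : ∀ i, (sz i : ℝ) ≤ (d : ℝ) + 1 := fun i => by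
    have : (sz i : ℝ) ≤ d := by exact_mod_cast hd i
    linarith
  have hszd' : ∀ i, (sz i : ℝ) + 1 ≤ (d : ℝ) + 1 := fun i => by
    have : (sz i : ℝ) ≤ d := by exact_mod_cast hd i
    linarith
  have hk' : (Fintype.card (Fin n) : ℝ) ≤ k := by rwa [Fintype.card_fin]
  have hd' : ∀ i, Fintype.card (Fin (sz i)) ≤ d := fun i => by
    rw [Fintype.card_fin]
    exact hd i
  set T := tens fun i => (D i).T with hT
  set T' := tens fun i => (D i).T' with hT'
  let e : (∀ i, Fin (sz i)) → (∀ i, Fin (sz i)) := fun x i => (D i).e (x i)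
  let r : (∀ i, Fin (sz i)) → (∀ i, Fin (sz i)) := fun x i => (D i).r (x i)
  set M' : Matrix (∀ i, Fin (sz i)) (∀ i, Fin (sz i)) K := M.submatrix e r with hM'
  -- the three factors
  have gT : Gr ((d : ℝ) + 1) T := gr_upper sz hszd _ fun i a c h => (D i).T_up a c h
  have uT : IsUnit T.det := det_unit_upper sz _ (fun i a => (D i).T_diag a)
    fun i a c h => (D i).T_up a c h
  have eT' : T'ᵀ = tens fun i => ((D i).T')ᵀ := tens_transpose _
  have gT' : Gr ((d : ℝ) + 1) T'ᵀ := by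
    rw [eT']
    exact gr_upper sz hszd _ fun i a c h => (D i).T'_low c a h
  have uT' : IsUnit (T'ᵀ).det := by
    rw [eT']
    exact det_unit_upper sz _ (fun i a => (D i).T'_diag a) fun i a c h => (D i).T'_low c a h
  have r1 : RS E R T⁻¹ := rs_gr hM (gT.inv uT) hk' hk0 hd' hl hl1 hs
  have r3 : RS E R (T'ᵀ)⁻¹ := rs_gr hM (gT'.inv uT') hk' hk0 hd' hl hl1 hs
  -- the grading of the middle factor
  have gM : ∀ p q, (T * M' * T'ᵀ) p q ≠ 0 →
      (hammingDist p q : ℝ) ≤ ∑ i, (D i).φ (p i) - ∑ i, (D i).ψ (q i) := by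
    rw [hM']
    refine Submodule.span_induction (p := fun M _ => ∀ p q, (T * M.submatrix e r * T'ᵀ) p q ≠ 0 →
      (hammingDist p q : ℝ) ≤ ∑ i, (D i).φ (p i) - ∑ i, (D i).ψ (q i)) ?_ ?_ ?_ ?_ hMs
    · rintro B ⟨A, hA, rfl⟩ p q hne
      have e1 : T * (tens A).submatrix e r * T'ᵀ =
          tens fun i => (D i).T * (A i).submatrix (D i).e (D i).r * ((D i).T')ᵀ := by
        have e2 : (tens A).submatrix e r = tens fun i => (A i).submatrix (D i).e (D i).r := rfl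
        rw [e2, hT, eT', tens_mul, tens_mul]
      rw [e1, tens, Finset.prod_ne_zero_iff] at hne
      rw [hammingDist_eq_sum, ← Finset.sum_sub_distrib]
      exact Finset.sum_le_sum fun i _ =>
        (D i).hz (A i) (hA i) (p i) (q i) (hne i (Finset.mem_univ i))
    · intro p q hne
      rw [Matrix.submatrix_zero] at hne
      simp at hne
    · intro A B _ _ hA hB p q hne
      rw [Matrix.submatrix_add, Pi.add_apply, Pi.add_apply, Matrix.mul_add, Matrix.add_mul,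
        Matrix.add_apply] at hne
      by_cases h0 : (T * A.submatrix e r * T'ᵀ) p q = 0
      · rw [h0, zero_add] at hne
        exact hB p q hne
      · exact hA p q h0
    · intro c A _ hA p q hne
      refine hA p q fun h0 => hne ?_
      rw [Matrix.submatrix_smul, Pi.smul_apply, Pi.smul_apply, Matrix.mul_smul, Matrix.smul_mul,
        Matrix.smul_apply, h0, smul_zero]
  have r2 : RS E R (T * M' * T'ᵀ) :=
    rs_two (fun i => (D i).φ) (fun i => (D i).ψ) hM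
      (fun i a => ⟨((D i).hφ a).1, ((D i).hφ a).2.trans (hszd' i)⟩)
      (fun i a => ⟨((D i).hψ a).1, ((D i).hψ a).2.trans (hszd' i)⟩)
      (fun i => (D i).hφψ) hk' hk0 hd' hl hl1 hs _ gM
  have hE0 : 0 ≤ E := (Real.exp_pos _).le
  have r4 : RS (E * E * E) (R + R + R) (T⁻¹ * (T * M' * T'ᵀ) * (T'ᵀ)⁻¹) :=
    (r1.mul r2 hE0).mul r3 hE0
  have e4 : T⁻¹ * (T * M' * T'ᵀ) * (T'ᵀ)⁻¹ = M' := by
    rw [Matrix.mul_assoc, Matrix.mul_assoc (T * M'), Matrix.mul_nonsing_inv _ uT', Matrix.mul_one,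
      ← Matrix.mul_assoc, Matrix.nonsing_inv_mul _ uT, Matrix.one_mul]
  rw [e4] at r4
  have r5 := r4.submatrix (fun (x : ∀ i, Fin (sz i)) i => (D i).e.symm (x i))
    (fun (x : ∀ i, Fin (sz i)) i => (D i).r.symm (x i)) (by
      intro x y hxy
      funext i
      exact (D i).r.symm.injective (congrFun hxy i))
  have e5 : M'.submatrix (fun (x : ∀ i, Fin (sz i)) i => (D i).e.symm (x i))
      (fun (x : ∀ i, Fin (sz i)) i => (D i).r.symm (x i)) = M := by
    ext x y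
    simp [hM', e, r]
  rw [e5] at r5
  refine r5.mono (le_of_eq ?_) (le_of_eq ?_)
  · rw [hE, ← Real.exp_add, ← Real.exp_add]
    congr 1
    ring
  · rw [hR]
    ring

end

end Pool.Agent.TH969.MT
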