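import Pool.Agent.TH969.MT.Sp

set_option autoImplicit false
set_option linter.unusedSectionVars false

/-!
# Tame matrix spaces
-/

namespace Pool.Agent.TH969.MT

open Matrix Finset Module

variable {K : Type} [Field K]

/-- A space of matrices is tame if it is equivalent to a space of lower triangular matrices, or if
it has a block of zeros which is too large for a matrix of full rank. -/
def Tame {s : ℕ} (𝓐 : Submodule K (Matrix (Fin s) (Fin s) K)) : Prop :=
  (∃ P Q : Matrix (Fin s) (Fin s) K, IsUnit P.det ∧ IsUnit Q.det ∧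
    ∀ A ∈ 𝓐, ∀ p q, p < q → (P * A * Q) p q = 0) ∨
  ∃ R C : Submodule K (Fin s → K), s < finrank K R + finrank K C ∧
    ∀ A ∈ 𝓐, ∀ x ∈ R, ∀ y ∈ C, x ⬝ᵥ (A *ᵥ y) = 0

theorem span_dim' {V : Type*} [AddCommGroup V] [Module K V] {s : ℕ} (b : Fin s → V)
    (hb : LinearIndependent K b) (k : ℕ) (hk : k ≤ s) :
    finrank K (Submodule.span K (b '' {j | j.val < k})) = k := by
  have h1 : (b '' {j | j.val < k}) = Set.range (fun i : Fin k => b (Fin.castLE hk i)) := by
    ext x
    constructor
    · rintro ⟨j, hj, rfl⟩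
      exact ⟨⟨j.val, hj⟩, rfl⟩
    · rintro ⟨i, rfl⟩
      exact ⟨Fin.castLE hk i, i.2, rfl⟩
  rw [h1, finrank_span_eq_card, Fintype.card_fin]
  exact hb.comp _ (Fin.castLE_injective hk)

theorem dot_span {s : ℕ} (A : Matrix (Fin s) (Fin s) K) (X Y : Set (Fin s → K))
    (h : ∀ x ∈ X, ∀ y ∈ Y, x ⬝ᵥ (A *ᵥ y) = 0) (x y : Fin s → K)
    (hx : x ∈ Submodule.span K X) (hy : y ∈ Submodule.span K Y) : x ⬝ᵥ (A *ᵥ y) = 0 := by
  refine Submodule.span_induction (p := fun x _ => x ⬝ᵥ (A *ᵥ y) = 0) ?_ ?_ ?_ ?_ hx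
  · intro x hx
    refine Submodule.span_induction (p := fun y _ => x ⬝ᵥ (A *ᵥ y) = 0) ?_ ?_ ?_ ?_ hy
    · intro y hy
      exact h x hx y hy
    · simp
    · intro a b _ _ ha hb
      rw [Matrix.mulVec_add, dotProduct_add, ha, hb, add_zero]
    · intro c a _ ha
      rw [Matrix.mulVec_smul, dotProduct_smul, ha, smul_zero]
  · simp
  · intro a b _ _ ha hb
    rw [add_dotProduct, ha, hb, add_zero]
  · intro c a _ ha
    rw [smul_dotProduct, ha, smul_zero]

theorem ds_of_tri {s : ℕ} (𝓐 : Submodule K (Matrix (Fin s) (Fin s) K))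
    (P Q : Matrix (Fin s) (Fin s) K) (hP : IsUnit P.det) (hQ : IsUnit Q.det)
    (h : ∀ A ∈ 𝓐, ∀ p q, p < q → (P * A * Q) p q = 0) :
    Nonempty (DS K (𝓐 : Set (Matrix (Fin s) (Fin s) K))) := by
  have hPi : LinearIndependent K (fun j : Fin s => P.row j) :=
    Matrix.linearIndependent_rows_iff_isUnit.2 ((Matrix.isUnit_iff_isUnit_det P).2 hP)
  have hQi : LinearIndependent K (fun j : Fin s => Q.col j) :=
    Matrix.linearIndependent_cols_iff_isUnit.2 ((Matrix.isUnit_iff_isUnit_det Q).2 hQ)
  have hQi' : LinearIndependent K (fun j : Fin s => Q.col (Fin.rev j)) :=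
    hQi.comp _ Fin.rev_injective
  refine ds_of_flags _
    (fun k => Submodule.span K ((fun j : Fin s => P.row j) '' {j | j.val < k + 1}))
    (fun k => Submodule.span K ((fun j : Fin s => Q.col (Fin.rev j)) '' {j | j.val < k + 1}))
    (fun k => k) (fun k => k) ?_ ?_ ?_ ?_ (le_refl _) ?_
  · intro k hk
    exact (span_dim' _ hPi (k + 1) (by omega)).ge
  · intro k hk
    exact (span_dim' _ hQi' (k + 1) (by omega)).ge
  · intro a
    have : (a : ℝ) < s := by exact_mod_cast a.2
    exact ⟨by positivity, by linarith⟩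
  · intro a
    have : (a : ℝ) < s := by exact_mod_cast a.2
    exact ⟨by positivity, by linarith⟩
  · intro p q A hA w hw c hc hwc
    have hqp : q ≤ p := by
      by_contra hlt
      rw [not_le] at hlt
      apply hwc
      refine dot_span A _ _ ?_ w c hw hc
      rintro _ ⟨i, hi, rfl⟩ _ ⟨j, hj, rfl⟩
      have hi' : (i : ℕ) < (p : ℕ) + 1 := hi
      have hj' : (j : ℕ) < (Fin.rev q : ℕ) + 1 := hj
      have hij : i < Fin.rev j := by
        rw [Fin.lt_def, Fin.val_rev]
        rw [Fin.val_rev] at hj'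
        have hlt' : (p : ℕ) < (q : ℕ) := hlt
        have := q.2
        omega
      have h1 := h A hA i (Fin.rev j) hij
      rw [← h1]
      simp only [Matrix.mul_apply, dotProduct, Matrix.mulVec, Matrix.row, Matrix.col,
        Finset.mul_sum, Finset.sum_mul]
      rw [Finset.sum_comm]
      refine Finset.sum_congr rfl fun x _ => Finset.sum_congr rfl fun y _ => ?_
      rw [mul_assoc]
      rfl
    split_ifs with hne
    · have h2 : (q : ℕ) + 1 ≤ (p : ℕ) := by
        have h3 : (q : ℕ) ≤ (p : ℕ) := hqp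
        have h4 : (p : ℕ) ≠ (q : ℕ) := fun h => hne (Fin.ext h)
        omega
      have h3 : ((q : ℕ) : ℝ) + 1 ≤ ((p : ℕ) : ℝ) := by exact_mod_cast h2
      linarith
    · have h3 : ((q : ℕ) : ℝ) ≤ ((p : ℕ) : ℝ) := by exact_mod_cast hqp
      linarith

theorem sum_step {s m : ℕ} (hm : m ≤ s) (a b : ℝ) :
    ∑ i : Fin s, (if i.val < m then a else b) = m * a + (s - m) * b := by
  rw [Finset.sum_ite, Finset.sum_const, Finset.sum_const, nsmul_eq_mul, nsmul_eq_mul]
  have h1 : (Finset.univ.filter fun i : Fin s => i.val < m).card = m := by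
    rw [Fin.card_filter_val_lt]
    omega
  have h2 : (Finset.univ.filter fun i : Fin s => ¬ i.val < m).card = s - m := by
    have h3 := Finset.card_filter_add_card_filter_not (s := (Finset.univ : Finset (Fin s)))
      (fun i : Fin s => i.val < m)
    rw [h1, Finset.card_univ, Fintype.card_fin] at h3
    omega
  rw [h1, h2, Nat.cast_sub hm]

theorem ds_of_gap {s : ℕ} (𝓐 : Submodule K (Matrix (Fin s) (Fin s) K))
    (R C : Submodule K (Fin s → K)) (hRC : s < finrank K R + finrank K C)
    (h : ∀ A ∈ 𝓐, ∀ x ∈ R, ∀ y ∈ C, x ⬝ᵥ (A *ᵥ y) = 0) :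
    Nonempty (DS K (𝓐 : Set (Matrix (Fin s) (Fin s) K))) := by
  have hr : finrank K R ≤ s := by
    have := Submodule.finrank_le R
    rwa [Module.finrank_fin_fun] at this
  have hc : finrank K C ≤ s := by
    have := Submodule.finrank_le C
    rwa [Module.finrank_fin_fun] at this
  set r := finrank K R with hrdef
  set c := finrank K C with hcdef
  have key : ∀ (j : ℕ) (P Q : Submodule K (Fin s → K)), P = Q → j + 1 ≤ finrank K Q →
      j + 1 ≤ finrank K P := by
    rintro j P _ rfl h
    exact h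
  have hs0 : (0 : ℝ) ≤ s := by positivity
  refine ds_of_flags _ (fun j => if j < r then R else ⊤) (fun j => if j < c then C else ⊤)
    (fun a => if a.val < r then 1 else s + 1) (fun a => if a.val < s - c then 0 else s)
    ?_ ?_ ?_ ?_ ?_ ?_
  · intro j hj
    by_cases h : j < r
    · refine key j _ _ (if_pos h) ?_
      omega
    · refine key j _ _ (if_neg h) ?_
      rw [finrank_top, Module.finrank_fin_fun]
      omega
  · intro j hj
    by_cases h : j < c
    · refine key j _ _ (if_pos h) ?_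
      omega
    · refine key j _ _ (if_neg h) ?_
      rw [finrank_top, Module.finrank_fin_fun]
      omega
  · intro a
    split_ifs <;> constructor <;> linarith
  · intro a
    split_ifs <;> constructor <;> linarith
  · rw [sum_step hr, sum_step (Nat.sub_le s c), Nat.cast_sub hc]
    have h1 : (s : ℝ) + 1 ≤ r + c := by exact_mod_cast hRC
    nlinarith
  · intro p q A hA w hw v hv hne
    have hrev : (Fin.rev q : ℕ) = s - (q + 1) := Fin.val_rev q
    by_cases hp : (p : ℕ) < r
    · rw [if_pos hp] at hw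
      have hq : (q : ℕ) < s - c := by
        by_contra hq
        have : (Fin.rev q : ℕ) < c := by
          have := q.2
          omega
        rw [if_pos this] at hv
        exact hne (h A hA w hw v hv)
      rw [if_pos hp, if_pos hq]
      split_ifs <;> norm_num
    · rw [if_neg hp]
      split_ifs <;> linarith

theorem ds_of_tame {s : ℕ} (𝓐 : Submodule K (Matrix (Fin s) (Fin s) K)) (h : Tame 𝓐) :
    Nonempty (DS K (𝓐 : Set (Matrix (Fin s) (Fin s) K))) := by
  rcases h with ⟨P, Q, hP, hQ, h⟩ | ⟨R, C, hRC, h⟩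
  · exact ds_of_tri 𝓐 P Q hP hQ h
  · exact ds_of_gap 𝓐 R C hRC h

end Pool.Agent.TH969.MT
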