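import Pool.Agent.W967.Rig.Desc

set_option autoImplicit false
set_option linter.unusedSectionVars false

/-!
# Matrices graded by two weights

The rows and the columns may carry different additive weights, as long as the mean of the row
weight is at most the mean of the column weight.
-/

namespace Pool.Agent.TH969.MT

open Matrix Finset
open Pool.Agent.W967.Rig

variable {ι : Type} [Fintype ι] [DecidableEq ι] {α : ι → Type} [∀ i, Fintype (α i)]

/-- The upper tail of a weight. -/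
theorem upper_exc (φ : ∀ i, α i → ℝ) (mn : ι → ℝ) {M k : ℝ} (hM : 0 < M)
    (h : ∀ i a, 0 ≤ φ i a ∧ φ i a ≤ M) (hne : ∀ i, Nonempty (α i))
    (hmn : ∀ i, mn i = (∑ a, φ i a) / Fintype.card (α i))
    (hk : (Fintype.card ι : ℝ) ≤ k) (hk0 : 0 < k) {s : ℝ} (hs : 0 ≤ s) :
    ((Finset.univ.filter fun x : (∀ i, α i) => s / 2 < ∑ i, (φ i (x i) - mn i)).card : ℝ) ≤
        Fintype.card (∀ i, α i) * Real.exp (-(s ^ 2 / (8 * M ^ 2 * k))) ∧
    ((Finset.univ.filter fun x : (∀ i, α i) => s / 2 < ∑ i, -(φ i (x i) - mn i)).card : ℝ) ≤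
        Fintype.card (∀ i, α i) * Real.exp (-(s ^ 2 / (8 * M ^ 2 * k))) := by
  classical
  have hcard : ∀ i, (0 : ℝ) < Fintype.card (α i) := fun i => by exact_mod_cast Fintype.card_pos
  let g : ∀ i, α i → ℝ := fun i a => φ i a - mn i
  have hmn0 : ∀ i, 0 ≤ mn i := fun i => by
    rw [hmn]
    exact div_nonneg (Finset.sum_nonneg fun a _ => (h i a).1) (hcard i).le
  have hmn1 : ∀ i, mn i ≤ M := fun i => by
    rw [hmn, div_le_iff₀ (hcard i)]
    calc ∑ a, φ i a ≤ ∑ _a : α i, M := Finset.sum_le_sum fun a _ => (h i a).2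
      _ = M * Fintype.card (α i) := by simp [mul_comm]
  have hg1 : ∀ i a, |g i a| ≤ M := by
    intro i a
    rw [abs_le]
    have := h i a
    have := hmn0 i
    have := hmn1 i
    constructor <;> simp only [g] <;> linarith
  have hg0 : ∀ i, ∑ a, g i a = 0 := by
    intro i
    have := (hcard i).ne'
    simp only [g, hmn, Finset.sum_sub_distrib, Finset.sum_const, Finset.card_univ, nsmul_eq_mul]
    field_simp
    ring
  have ht : 0 ≤ s / 2 := by positivity
  have h1 := tail g hM hg1 hg0 hk hk0 ht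
  have h2 := tail (fun i a => -g i a) hM (fun i a => by rw [abs_neg]; exact hg1 i a)
    (fun i => by rw [Finset.sum_neg_distrib, hg0 i, neg_zero]) hk hk0 ht
  have e1 : (s / 2) ^ 2 / (2 * M ^ 2 * k) = s ^ 2 / (8 * M ^ 2 * k) := by
    field_simp
    ring
  rw [e1] at h1 h2
  exact ⟨h1, h2⟩

/-- The exceptional sets of two weights. -/
theorem exists_exc2 (φ ψ : ∀ i, α i → ℝ) {M k : ℝ} (hM : 0 < M)
    (hφ : ∀ i a, 0 ≤ φ i a ∧ φ i a ≤ M) (hψ : ∀ i a, 0 ≤ ψ i a ∧ ψ i a ≤ M)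
    (hφψ : ∀ i, ∑ a, φ i a ≤ ∑ a, ψ i a) (hk : (Fintype.card ι : ℝ) ≤ k)
    (hk0 : 0 < k) {s : ℝ} (hs : 0 ≤ s) :
    ∃ E E' : Finset (∀ i, α i),
      (E.card : ℝ) ≤ Fintype.card (∀ i, α i) * Real.exp (-(s ^ 2 / (8 * M ^ 2 * k))) ∧
      (E'.card : ℝ) ≤ Fintype.card (∀ i, α i) * Real.exp (-(s ^ 2 / (8 * M ^ 2 * k))) ∧
      ∀ x y, x ∉ E → y ∉ E' → ∑ i, φ i (x i) - ∑ i, ψ i (y i) ≤ s := by
  classical
  by_cases hne : ∀ i, Nonempty (α i)
  swap
  · push Not at hne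
    obtain ⟨i, hi⟩ := hne
    refine ⟨∅, ∅, by simp; positivity, by simp; positivity, fun x => ?_⟩
    exact (IsEmpty.false (x i)).elim
  let mn : ι → ℝ := fun i => (∑ a, φ i a) / Fintype.card (α i)
  let mn' : ι → ℝ := fun i => (∑ a, ψ i a) / Fintype.card (α i)
  have hmm : ∀ i, mn i ≤ mn' i := fun i => by
    have hc : (0 : ℝ) < Fintype.card (α i) := by exact_mod_cast Fintype.card_pos
    exact div_le_div_of_nonneg_right (hφψ i) hc.le
  have h1 := (upper_exc φ mn hM hφ hne (fun i => rfl) hk hk0 hs).1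
  have h2 := (upper_exc ψ mn' hM hψ hne (fun i => rfl) hk hk0 hs).2
  refine ⟨_, _, h1, h2, ?_⟩
  intro x y hx hy
  simp only [Finset.mem_filter, Finset.mem_univ, true_and, not_lt] at hx hy
  simp only [Finset.sum_sub_distrib, Finset.sum_neg_distrib] at hx hy
  have h3 : ∑ i, mn i ≤ ∑ i, mn' i := Finset.sum_le_sum fun i _ => hmm i
  linarith

variable {K : Type*} [Field K] [∀ i, DecidableEq (α i)]

/-- A matrix graded by two weights is sparse plus low rank. -/
theorem rs_two (φ ψ : ∀ i, α i → ℝ) {M k : ℝ} (hM : 0 < M)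
    (hφ : ∀ i a, 0 ≤ φ i a ∧ φ i a ≤ M) (hψ : ∀ i a, 0 ≤ ψ i a ∧ ψ i a ≤ M)
    (hφψ : ∀ i, ∑ a, φ i a ≤ ∑ a, ψ i a) (hk : (Fintype.card ι : ℝ) ≤ k)
    (hk0 : 0 < k) {d : ℕ} (hd : ∀ i, Fintype.card (α i) ≤ d)
    {l s : ℝ} (hl : 0 < l) (hl1 : l ≤ 1) (hs : 0 ≤ s) (G : Matrix (∀ i, α i) (∀ i, α i) K)
    (hG : ∀ x y, G x y ≠ 0 → (hammingDist x y : ℝ) ≤ ∑ i, φ i (x i) - ∑ i, ψ i (y i)) :
    RS (Real.exp (s * Real.log (1 / l) + l * d * k))
      (2 * (Fintype.card (∀ i, α i) * Real.exp (-(s ^ 2 / (8 * M ^ 2 * k))))) G := by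
  classical
  obtain ⟨E, E', hE, hE', hEE⟩ := exists_exc2 φ ψ hM hφ hψ hφψ hk hk0 hs
  let S : Matrix (∀ i, α i) (∀ i, α i) K :=
    Matrix.of fun x y => if x ∈ E ∨ y ∈ E' then 0 else G x y
  let R₁ : Matrix (∀ i, α i) (∀ i, α i) K := Matrix.of fun x y => if x ∈ E then G x y else 0
  let R₂ : Matrix (∀ i, α i) (∀ i, α i) K :=
    Matrix.of fun x y => if x ∉ E ∧ y ∈ E' then G x y else 0
  refine ⟨S, R₁ + R₂, ?_, ?_, ?_⟩
  · ext x y
    simp only [Matrix.add_apply, S, R₁, R₂, Matrix.of_apply]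
    by_cases hx : x ∈ E <;> by_cases hy : y ∈ E' <;> simp [hx, hy]
  · have h1 : Rk (E.card : ℝ) R₁ := by
      refine Rk.of_rows _ _ fun x y hxy => ?_
      simp only [R₁, Matrix.of_apply] at hxy
      by_contra hn
      rw [if_neg hn] at hxy
      exact hxy rfl
    have h2 : Rk (E'.card : ℝ) R₂ := by
      refine Rk.of_cols _ _ fun x y hxy => ?_
      simp only [R₂, Matrix.of_apply] at hxy
      by_contra hn
      rw [if_neg fun hh => hn hh.2] at hxy
      exact hxy rfl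
    exact (h1.add h2).mono (by linarith)
  · intro x
    refine le_trans ?_ (ball_le x hl hl1 hd hk (s := s))
    norm_cast
    refine Finset.card_le_card ?_
    intro y hy
    rw [Finset.mem_filter] at hy ⊢
    refine ⟨Finset.mem_univ _, ?_⟩
    have h3 := hy.2
    simp only [S, Matrix.of_apply] at h3
    by_cases hxy : x ∈ E ∨ y ∈ E'
    · rw [if_pos hxy] at h3
      exact absurd rfl h3
    · rw [if_neg hxy] at h3
      rw [not_or] at hxy
      exact (hG x y h3).trans (hEE x y hxy.1 hxy.2)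

end Pool.Agent.TH969.MT
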